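import Mathlib
import Pool.Agent.V7H45.TM.RSb
import Pool.Agent.V7H45.TM.RVb

/-!
# The weighted sums with the Rankin trick, with a general shift in the weights
-/

namespace Pool.Agent.V7H45.BF

open Finset Pool.Agent.W262.RK Pool.Agent.W405.RK2 Pool.Agent.V7H45.TM

/-- the bracket -/
lemma bracket {b : ℝ} (hb : 1 ≤ b) (J : Type) [Fintype J] [DecidableEq J] (c z : ℕ) (lam : ℝ)
    (hz : 2 * c + 2 ≤ z) (hlam : 0 ≤ lam) : ∃ E : ℝ, 0 ≤ E ∧ ∀ y : ℕ, z < y →
    ∑ e ∈ Tup J z y, ∏ j, (b ^ (e j).primeFactors.card * gw 1 c (e j) *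
      HH (lam / Real.log y) (e j)) ≤ E := by
  classical
  obtain ⟨C1, hC1⟩ := Pool.Agent.Helper256.KM.mertens_log
  set B : ℝ := (2 * b) * (lam * Real.exp lam * (1 + |C1|)) with hB
  have hB0 : 0 ≤ B := by positivity
  refine ⟨Real.exp B ^ Fintype.card J, by positivity, fun y hy => ?_⟩
  have hy3 : 3 ≤ y := by omega
  have hyr : (3 : ℝ) ≤ y := by exact_mod_cast hy3
  have hl1 : 1 < Real.log y := by
    rw [Real.lt_log_iff_exp_lt (by linarith)]
    have := Real.exp_one_lt_d9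
    linarith
  set δ : ℝ := lam / Real.log y with hδd
  have hδ : 0 ≤ δ := div_nonneg hlam (by linarith)
  set φ : ℕ → ℝ := fun d => b ^ d.primeFactors.card * gw 1 c d * HH δ d with hφ
  have hφn : ∀ d ∈ (PP z y).divisors, 0 ≤ φ d := by
    intro d hd
    exact mul_nonneg (mul_nonneg (by positivity)
      (gw1_nonneg (by omega) (Nat.dvd_of_mem_divisors hd))) (HH_nonneg hδ _)
  have h1 : ∑ e ∈ Tup J z y, ∏ j, φ (e j) ≤
      ∑ e ∈ Fintype.piFinset (fun _ : J => (PP z y).divisors), ∏ j, φ (e j) := by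
    unfold Tup
    refine sum_le_sum_of_subset_of_nonneg (filter_subset _ _) fun e he _ => ?_
    exact prod_nonneg fun j _ => hφn _ (Fintype.mem_piFinset.1 he j)
  have h2 : ∑ e ∈ Fintype.piFinset (fun _ : J => (PP z y).divisors), ∏ j, φ (e j) =
      (∑ d ∈ (PP z y).divisors, φ d) ^ Fintype.card J := by
    rw [← Finset.prod_univ_sum, prod_const, Finset.card_univ]
  set ψ : ℕ → ℝ := fun p => b * (1 / ((p : ℝ) - c)) * ((p : ℝ) ^ δ - 1) with hψ
  have h3 : ∑ d ∈ (PP z y).divisors, φ d = ∏ p ∈ PS z y, (1 + ψ p) := by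
    have := Pool.Agent.W655.RK.sum_mult (PS z y) (fun p hp => Pool.Agent.W655.RK.PS_prime hp) ψ
    rw [← this]
    refine sum_congr rfl fun d _ => ?_
    simp only [hφ, hψ, gw, HH]
    rw [← prod_const, ← prod_mul_distrib, ← prod_mul_distrib]
  have hψn : ∀ p ∈ PS z y, 0 ≤ ψ p ∧ ψ p ≤ (2 * b) * (δ * Real.exp lam) * (Real.log p / p) := by
    intro p hp
    have hpz := Pool.Agent.W655.RK.PS_lt hp
    have hpy := Pool.Agent.W655.RK.PS_le hp
    have hpp := Pool.Agent.W655.RK.PS_prime hp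
    have hp1 : (2 * c + 3 : ℝ) ≤ p := by exact_mod_cast (by omega : 2 * c + 3 ≤ p)
    have hc0 : (0:ℝ) ≤ c := Nat.cast_nonneg c
    have hp0 : (0:ℝ) < p := by linarith
    have hpc : (0:ℝ) < (p : ℝ) - c := by linarith
    have hp1' : (1 : ℝ) ≤ p := by linarith
    have hlogp : 0 ≤ Real.log p := Real.log_nonneg hp1'
    have hlogy : Real.log p ≤ Real.log y := Real.log_le_log hp0 (by exact_mod_cast hpy)
    have hx : δ * Real.log p ≤ lam := by
      rw [hδd, div_mul_eq_mul_div, div_le_iff₀ (by linarith)]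
      exact mul_le_mul_of_nonneg_left hlogy hlam
    have hge : 1 ≤ (p : ℝ) ^ δ := Real.one_le_rpow hp1' hδ
    have hle : (p : ℝ) ^ δ - 1 ≤ δ * Real.log p * Real.exp lam := by
      rw [Real.rpow_def_of_pos hp0, mul_comm (Real.log p) δ]
      refine exp_sub_one_le.trans ?_
      exact mul_le_mul_of_nonneg_left (Real.exp_le_exp.2 hx) (mul_nonneg hδ hlogp)
    have hinv : 1 / ((p : ℝ) - c) ≤ 2 / p := by
      rw [div_le_div_iff₀ hpc hp0]
      linarith
    constructor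
    · simp only [hψ]
      exact mul_nonneg (mul_nonneg (by linarith) (by positivity)) (by linarith)
    · simp only [hψ]
      calc b * (1 / ((p : ℝ) - c)) * ((p : ℝ) ^ δ - 1)
          ≤ b * (2 / p) * (δ * Real.log p * Real.exp lam) := by
            apply mul_le_mul (mul_le_mul_of_nonneg_left hinv (by linarith)) hle (by linarith)
              (by positivity)
        _ = (2 * b) * (δ * Real.exp lam) * (Real.log p / p) := by ring
  have h4 : ∏ p ∈ PS z y, (1 + ψ p) ≤ Real.exp (∑ p ∈ PS z y, ψ p) :=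
    Pool.Agent.W655.RK.prod_le_exp _ _ fun p hp => by linarith [(hψn p hp).1]
  have h5 : ∑ p ∈ PS z y, ψ p ≤ B := by
    have a1 : ∑ p ∈ PS z y, ψ p ≤ ∑ p ∈ PS z y, (2 * b) * (δ * Real.exp lam) * (Real.log p / p) :=
      sum_le_sum fun p hp => (hψn p hp).2
    rw [← mul_sum] at a1
    have a2 : ∑ p ∈ PS z y, Real.log p / p ≤ ∑ p ∈ (Finset.Icc 1 y).filter Nat.Prime,
        Real.log p / p := by
      refine sum_le_sum_of_subset_of_nonneg ?_ fun p hp _ => ?_
      · intro p hp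
        exact mem_filter.2 ⟨mem_Icc.2 ⟨(Pool.Agent.W655.RK.PS_prime hp).one_lt.le,
          Pool.Agent.W655.RK.PS_le hp⟩, Pool.Agent.W655.RK.PS_prime hp⟩
      · have : (1 : ℝ) ≤ p := by exact_mod_cast (mem_filter.1 hp).2.one_lt.le
        exact div_nonneg (Real.log_nonneg this) (by linarith)
    have a3 := (abs_le.1 (hC1 y (by omega))).2
    have a4 : ∑ p ∈ PS z y, Real.log p / p ≤ Real.log y * (1 + |C1|) := by
      have := le_abs_self C1
      have := abs_nonneg C1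
      nlinarith
    have a5 : 0 ≤ (2 * b) * (δ * Real.exp lam) := by positivity
    calc ∑ p ∈ PS z y, ψ p ≤ (2 * b) * (δ * Real.exp lam) * ∑ p ∈ PS z y, Real.log p / p := a1
      _ ≤ (2 * b) * (δ * Real.exp lam) * (Real.log y * (1 + |C1|)) := mul_le_mul_of_nonneg_left a4 a5
      _ = B := by
        have : δ * Real.log y = lam := by
          rw [hδd]
          exact div_mul_cancel₀ _ (by linarith)
        rw [hB]
        calc (2 * b) * (δ * Real.exp lam) * (Real.log y * (1 + |C1|))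
            = (2 * b) * ((δ * Real.log y) * Real.exp lam * (1 + |C1|)) := by ring
          _ = _ := by rw [this]
  have h6 : 0 ≤ ∑ d ∈ (PP z y).divisors, φ d := sum_nonneg hφn
  calc ∑ e ∈ Tup J z y, ∏ j, φ (e j) ≤ (∑ d ∈ (PP z y).divisors, φ d) ^ Fintype.card J := by
        rw [← h2]; exact h1
    _ ≤ Real.exp B ^ Fintype.card J := by
        refine pow_le_pow_left₀ h6 ?_ _
        rw [h3]
        exact h4.trans (Real.exp_le_exp.2 h5)

/-- the weighted sum with Rankin's trick -/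
theorem rs {b : ℝ} (hb : 1 ≤ b) (J : Type) [Fintype J] [DecidableEq J] (c z : ℕ)
    (G : (J → ℕ) → ℝ) (C' lam : ℝ) (hz : 2 * c + 2 ≤ z) (hlam : 0 ≤ lam)
    (hG : ∀ s, 0 ≤ G s)
    (hg : ∀ y, z < y → ∀ s e : J → ℕ, (fun j => s j * e j) ∈ Tup J z y →
      G (fun j => s j * e j) ≤ b ^ (∑ j, (e j).primeFactors.card) * G s)
    (hS : ∀ y, z < y → ∑ s ∈ Tup J z y, G s * ∏ j, gw 1 c (s j) ≤
      C' * (Real.log y) ^ (Fintype.card J)) :
    ∃ C : ℝ, ∀ y, z < y →
      ∑ s ∈ Tup J z y, G s * (∏ j, gw 1 c (s j)) *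
        (∏ j, (s j : ℝ)) ^ (lam / Real.log y) ≤ C * (Real.log y) ^ (Fintype.card J) := by
  obtain ⟨E, hE0, hE⟩ := bracket hb J c z lam hz hlam
  refine ⟨E * C', fun y hy => ?_⟩
  have hy3 : 3 ≤ y := by omega
  have hyr : (3 : ℝ) ≤ y := by exact_mod_cast hy3
  have hl1 : 1 < Real.log y := by
    rw [Real.lt_log_iff_exp_lt (by linarith)]
    have := Real.exp_one_lt_d9
    linarith
  have hδ : 0 ≤ lam / Real.log y := div_nonneg hlam (by linarith)
  have hm := main_ineq hb J z y G (lam / Real.log y) c (by omega) hδ hG (hg y hy)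
  have hn : 0 ≤ ∑ s ∈ Tup J z y, G s * ∏ j, gw 1 c (s j) := by
    refine sum_nonneg fun s hs => mul_nonneg (hG s) (prod_nonneg fun j _ => ?_)
    exact gw1_nonneg (by omega) ((mem_Tup.1 hs).1 j)
  calc _ ≤ _ := hm
    _ ≤ E * ∑ s ∈ Tup J z y, G s * ∏ j, gw 1 c (s j) :=
        mul_le_mul_of_nonneg_right (hE y hy) hn
    _ ≤ E * (C' * (Real.log y) ^ (Fintype.card J)) := mul_le_mul_of_nonneg_left (hS y hy) hE0
    _ = E * C' * (Real.log y) ^ (Fintype.card J) := by ring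


/-- the sum over the squares -/
theorem rv {b : ℝ} (hb : 1 ≤ b) (J : Type) [Fintype J] [DecidableEq J] (c z : ℕ) (lam : ℝ)
    (hz : 2 * c + 2 ≤ z) (hlam : 0 ≤ lam) : ∃ C : ℝ, ∀ y, z < y →
    ∑ v ∈ Tup J z y, (∏ j, b ^ (v j).primeFactors.card * (gw 1 c (v j) / v j)) *
      (∏ j, (v j : ℝ)) ^ (lam / Real.log y) ≤ C := by
  refine ⟨Real.exp (Fintype.card J * ((2 * b) * Real.exp lam)), fun y hy => ?_⟩
  have hy3 : 3 ≤ y := by omega
  have hyr : (3 : ℝ) ≤ y := by exact_mod_cast hy3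
  have hl : 0 < Real.log y := Real.log_pos (by linarith)
  set δ := lam / Real.log y with hδ
  have hδ0 : 0 ≤ δ := div_nonneg hlam hl.le
  set h : ℕ → ℝ := fun p => (b * ((1 / ((p : ℝ) - c)) / p)) * (p : ℝ) ^ δ with hh
  have hpc : ∀ p ∈ PS z y, (p : ℝ) / 2 ≤ (p : ℝ) - c ∧ (0 : ℝ) < p := by
    intro p hp
    have h1 := (mem_PS.1 hp).1.1
    have h2 : 2 * (c : ℝ) ≤ p := by exact_mod_cast (by omega : 2 * c ≤ p)
    have h3 : (0 : ℝ) < p := by exact_mod_cast (mem_PS.1 hp).2.pos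
    exact ⟨by linarith, h3⟩
  have hnn : ∀ p ∈ PS z y, 0 ≤ h p := by
    intro p hp
    obtain ⟨h1, h2⟩ := hpc p hp
    have h3 : 0 < (p : ℝ) - c := by linarith
    simp only [hh]
    positivity
  have e : ∀ v ∈ Tup J z y, (∏ j, b ^ (v j).primeFactors.card * (gw 1 c (v j) / v j)) *
      (∏ j, (v j : ℝ)) ^ δ = ∏ j, ∏ p ∈ (v j).primeFactors, h p := by
    intro v hv
    rw [← Pool.Agent.W591.RK2.term hv δ]
    congr 1
    refine prod_congr rfl fun j _ => ?_
    have h1 : ∏ p ∈ (v j).primeFactors, ((1 / ((p : ℝ) - c)) / p) =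
        (∏ p ∈ (v j).primeFactors, 1 / ((p : ℝ) - c)) / ∏ p ∈ (v j).primeFactors, (p : ℝ) :=
      prod_div_distrib _ _
    rw [prod_mul_distrib, prod_const, h1, ← Pool.Agent.W591.RK2.cast_eq (dv_squarefree (Pool.Agent.W591.RK2.mem_Tup' hv j))]
    rfl
  rw [sum_congr rfl e]
  refine (Pool.Agent.W591.RK2.gen J z y h hnn).trans (Real.exp_le_exp.2 (mul_le_mul_of_nonneg_left ?_ (Nat.cast_nonneg _)))
  have hb : ∀ p ∈ PS z y, h p ≤ (2 * b) * Real.exp lam * (1 / (p : ℝ) ^ 2) := by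
    intro p hp
    obtain ⟨h1, h2⟩ := hpc p hp
    have h3 : 0 < (p : ℝ) - c := by linarith
    have h4 : (p : ℝ) ^ δ ≤ Real.exp lam := by
      have h5 : (p : ℝ) ≤ y := by exact_mod_cast (mem_PS.1 hp).1.2
      calc (p : ℝ) ^ δ ≤ (y : ℝ) ^ δ := Real.rpow_le_rpow h2.le h5 hδ0
        _ = Real.exp lam := by
          rw [Real.rpow_def_of_pos (by linarith), hδ]
          congr 1
          field_simp
    have h6 : b * ((1 / ((p : ℝ) - c)) / p) ≤ (2 * b) * (1 / (p : ℝ) ^ 2) := by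
      have h7 : 1 / ((p : ℝ) - c) ≤ 2 / p := by
        rw [div_le_div_iff₀ h3 h2]
        linarith
      have h8 : (1 / ((p : ℝ) - c)) / p ≤ (2 / p) / p := div_le_div_of_nonneg_right h7 h2.le
      have h9 : (2 / (p : ℝ)) / p = 2 * (1 / (p : ℝ) ^ 2) := by
        field_simp
      calc b * ((1 / ((p : ℝ) - c)) / p) ≤ b * ((2 / p) / p) :=
            mul_le_mul_of_nonneg_left h8 (by linarith)
        _ = (2 * b) * (1 / (p : ℝ) ^ 2) := by rw [h9]; ring
    calc h p ≤ ((2 * b) * (1 / (p : ℝ) ^ 2)) * Real.exp lam :=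
          mul_le_mul h6 h4 (by positivity) (by positivity)
      _ = _ := by ring
  calc ∑ p ∈ PS z y, h p ≤ ∑ p ∈ PS z y, (2 * b) * Real.exp lam * (1 / (p : ℝ) ^ 2) := sum_le_sum hb
    _ = (2 * b) * Real.exp lam * ∑ p ∈ PS z y, 1 / (p : ℝ) ^ 2 := by rw [mul_sum]
    _ ≤ (2 * b) * Real.exp lam * 1 :=
        mul_le_mul_of_nonneg_left (Pool.Agent.W591.RK2.sum_sq_le z y (by omega)) (by positivity)
    _ = _ := mul_one _


end Pool.Agent.V7H45.BF
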