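import Pool.Agent.W262.RK.F4c
import Pool.Agent.W45.RT.ANT
import Pool.Agent.W29.RT.CNT2
import Pool.Agent.V7H45.TM.SubK

/-!
# The rank of a twist and the local count
-/

set_option autoImplicit false

namespace Pool.Agent.V7H45.BF

open Finset Pool.Agent.W262.RK Pool.Agent.W307.RT Pool.Agent.W45.RT Pool.Agent.W29.RT

/-- the constants -/
def kc (a b : ℤ) (k : Fin 3) : ℤ := if k = 0 then a else if k = 1 then b else a - b

/-- the local conditions at the primes of the twist -/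
def LC (κ : Fin 3 → ℤ) (E : Finset ℕ) (p : ℕ) (v w h g : Bool) : Prop :=
  LL 3 κ (decide (p ∈ E)) p v w h g

/-- the primes with negative sign -/
def ng (m : ℕ) (d : ℤ) : Finset ℕ := m.primeFactors.filter (fun p => jacobiSym (d / p) p = -1)

lemma sq_symb {p : ℕ} (hp : p.Prime) {a x : ℤ} (ha : ¬ (p : ℤ) ∣ a) :
    jacobiSym (a * (a * x)) p = jacobiSym x p := by
  have hpi : Prime (p : ℤ) := Nat.prime_iff_prime_int.1 hp
  have h1 : a * (a * x) = a ^ 2 * x := by ring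
  rw [h1, jacobiSym.mul_left, jacobiSym.sq_one', one_mul]
  rw [← Int.isCoprime_iff_gcd_eq_one]
  exact IsCoprime.symm ((Prime.coprime_iff_not_dvd hpi).2 ha)

/-- the local hypotheses hold for a twist -/
lemma locT {a b d : ℤ} {p : ℕ} (hp : p.Prime) (hκ : ∀ k, ¬ (p : ℤ) ∣ kc a b k) (hd : (p : ℤ) ∣ d)
    (hd2 : ¬ (p : ℤ) ^ 2 ∣ d) {neg : Bool} (hneg : neg = true ↔ jacobiSym (d / p) p = -1) :
    LocH 3 (kc a b) neg p (a * d) (b * d) := by
  have hpi : Prime (p : ℤ) := Nat.prime_iff_prime_int.1 hp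
  have ha : ¬ (p : ℤ) ∣ a := hκ 0
  have hb : ¬ (p : ℤ) ∣ b := hκ 1
  have hab : ¬ (p : ℤ) ∣ a - b := hκ 2
  have h2 : ∀ c : ℤ, ¬ (p : ℤ) ∣ c → ¬ (p : ℤ) ^ 2 ∣ c * d := by
    intro c hc h
    exact hd2 ((IsCoprime.pow_left ((Prime.coprime_iff_not_dvd hpi).2 hc)).dvd_of_dvd_mul_left h)
  have hJ : jacobiSym (d / p) p = if neg = true then -1 else 1 := by
    split_ifs with h5
    · exact hneg.1 h5
    · have h6 : jacobiSym (d / p) p ≠ -1 := fun h7 => h5 (hneg.2 h7)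
      have h7 : (d / p).gcd p = 1 := by
        rw [← Int.isCoprime_iff_gcd_eq_one]
        refine IsCoprime.symm ((Prime.coprime_iff_not_dvd hpi).2 fun h8 => hd2 ?_)
        obtain ⟨q, hq⟩ := hd
        rw [hq, Int.mul_ediv_cancel_left _ hpi.ne_zero] at h8
        rw [hq, pow_two]
        exact mul_dvd_mul_left _ h8
      rcases jacobiSym.eq_one_or_neg_one h7 with h8 | h8
      · exact h8
      · exact absurd h8 h6
  have hs : ∀ c : ℤ, ¬ (p : ℤ) ∣ c → jacobiSym (c * (c * d / p)) p = if neg = true then -1 else 1 := by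
    intro c hc
    rw [Int.mul_ediv_assoc _ hd, sq_symb hp hc, hJ]
  have e : a * d - b * d = (a - b) * d := by ring
  unfold LocH
  rw [if_neg (by decide), if_neg (by decide), if_neg (by decide), e]
  exact ⟨hd.mul_left _, hd.mul_left _, h2 a ha, h2 b hb, h2 _ hab, hs a ha, hs b hb, hs _ hab⟩

variable {I : Type} [Fintype I] [DecidableEq I]

/-- a prime of the modulus divides the twist exactly once -/
lemma dvd_tw {Q : Finset I} {z y : ℕ} {f : I → ℤ} (hG : Gd z f) {p : ℕ} (hp : p.Prime) {i : I}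
    (hi : i ∈ Q) (hpi : p ∣ S1 z y f i) :
    (p : ℤ) ∣ ∏ l ∈ Q, f l ∧ ¬ (p : ℤ) ^ 2 ∣ ∏ l ∈ Q, f l := by
  have hP : Prime (p : ℤ) := Nat.prime_iff_prime_int.1 hp
  obtain ⟨h1, h2, h3⟩ := (dvd_S1 hp).1 hpi
  refine ⟨h2.trans (dvd_prod_of_mem _ hi), fun h => h3 ?_⟩
  rw [← mul_prod_erase _ _ hi] at h
  refine (IsCoprime.pow_left ((Prime.coprime_iff_not_dvd hP).2 fun h4 => ?_)).dvd_of_dvd_mul_right h
  obtain ⟨l, hl, hl2⟩ := (hP.dvd_finsetProd_iff _).1 h4
  exact hG.2 p hp (mem_PS.1 h1).1.1 i l (ne_of_mem_erase hl).symm ⟨h2, hl2⟩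

lemma dvd_m {Q : Finset I} {z y : ℕ} {f : I → ℤ} {p : ℕ} (hp : p.Prime)
    (h : p ∣ ∏ i ∈ Q, S1 z y f i) : ∃ i ∈ Q, p ∣ S1 z y f i :=
  (hp.prime.dvd_finsetProd_iff _).1 h

/-- the number of the primes outside the modulus -/
lemma badT (Q : Finset I) {a b : ℤ} {z y X k : ℕ} (hz : 2 ≤ z)
    (hκ : ∀ p : ℕ, p.Prime → z < p → ∀ k, ¬ (p : ℤ) ∣ kc a b k) {f : I → ℤ} (hG : Gd z f)
    (hbd : ∀ i, (f i).natAbs ≤ X ^ 2) (hX : 1 ≤ X) (hy : 1 ≤ y) (hk : X < (y + 1) ^ k) :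
    ((2 * (a * ∏ i ∈ Q, f i) * (b * ∏ i ∈ Q, f i) *
      (a * ∏ i ∈ Q, f i - b * ∏ i ∈ Q, f i)).natAbs.primeFactors.filter
        (fun q => ¬ q ∣ ∏ i ∈ Q, S1 z y f i)).card ≤
      z + Fintype.card I * (2 * k) + ∑ i, (S2 z y f i).primeFactors.card := by
  have hsub : ((2 * (a * ∏ i ∈ Q, f i) * (b * ∏ i ∈ Q, f i) *
      (a * ∏ i ∈ Q, f i - b * ∏ i ∈ Q, f i)).natAbs.primeFactors.filter
        (fun q => ¬ q ∣ ∏ i ∈ Q, S1 z y f i)) ⊆
      ((Icc 1 z) ∪ univ.biUnion (fun j => (f j).natAbs.primeFactors.filter (y < ·))) ∪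
        univ.biUnion (fun j => (S2 z y f j).primeFactors) := by
    intro q hq
    rw [mem_filter] at hq
    have hp := Nat.prime_of_mem_primeFactors hq.1
    have hdv := Nat.dvd_of_mem_primeFactors hq.1
    rw [mem_union, mem_union, mem_Icc]
    rcases Nat.lt_or_ge z q with h | h
    swap
    · exact Or.inl (Or.inl ⟨hp.one_lt.le, h⟩)
    · have hqi : Prime (q : ℤ) := Nat.prime_iff_prime_int.1 hp
      have hdv2 := Int.natCast_dvd.2 hdv
      have hk : (q : ℤ) ∣ ∏ i ∈ Q, f i := by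
        have e : 2 * (a * ∏ i ∈ Q, f i) * (b * ∏ i ∈ Q, f i) *
            (a * ∏ i ∈ Q, f i - b * ∏ i ∈ Q, f i) =
            2 * kc a b 0 * kc a b 1 * kc a b 2 * (∏ i ∈ Q, f i) ^ 3 := by
          show _ = 2 * a * b * (a - b) * (∏ i ∈ Q, f i) ^ 3
          ring
        rw [e] at hdv2
        rcases hqi.dvd_or_dvd hdv2 with h1 | h1
        · exfalso
          rcases hqi.dvd_or_dvd h1 with h1 | h1
          · rcases hqi.dvd_or_dvd h1 with h1 | h1
            · rcases hqi.dvd_or_dvd h1 with h3 | h3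
              · have h4 : q ∣ 2 := by exact_mod_cast h3
                have h5 := Nat.le_of_dvd (by norm_num) h4
                omega
              · exact hκ q hp h 0 h3
            · exact hκ q hp h 1 h1
          · exact hκ q hp h 2 h1
        · exact hqi.dvd_of_dvd_pow h1
      obtain ⟨l, hlQ, hl⟩ := (hqi.dvd_finsetProd_iff _).1 hk
      rcases Nat.lt_or_ge y q with hyq | hyq
      · left; right
        rw [mem_biUnion]
        refine ⟨l, mem_univ _, ?_⟩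
        rw [mem_filter, Nat.mem_primeFactors]
        exact ⟨⟨hp, Int.natCast_dvd.1 hl, Int.natAbs_ne_zero.2 (hG.1 l)⟩, hyq⟩
      · right
        have hPS : q ∈ PS z y := mem_PS.2 ⟨⟨h, hyq⟩, hp⟩
        rw [mem_biUnion]
        refine ⟨l, mem_univ _, ?_⟩
        have hsq : (q : ℤ) ^ 2 ∣ f l := by
          by_contra hcon
          apply hq.2
          refine dvd_trans ?_ (dvd_prod_of_mem _ hlQ)
          exact (dvd_S1 hp).2 ⟨hPS, hl, hcon⟩
        rw [Nat.mem_primeFactors]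
        refine ⟨hp, (dvd_S2 hp).2 ⟨hPS, hsq⟩, ?_⟩
        exact prod_ne_zero_iff.2 fun p hp => (mem_PS.1 (mem_filter.1 hp).1).2.ne_zero
  have hone : ∀ j, ((f j).natAbs.primeFactors.filter (y < ·)).card ≤ 2 * k := by
    intro j
    set S := (f j).natAbs.primeFactors.filter (y < ·) with hS
    have h1 : (y + 1) ^ S.card ≤ ∏ q ∈ S, q :=
      Finset.pow_card_le_prod _ _ _ (fun q hq => by
        have := (mem_filter.1 hq).2
        omega)
    have h2 : ∏ q ∈ S, q ∣ (f j).natAbs :=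
      (prod_dvd_prod_of_subset _ _ _ (filter_subset _ _)).trans (Nat.prod_primeFactors_dvd _)
    have h3 : ∏ q ∈ S, q ≤ (f j).natAbs :=
      Nat.le_of_dvd (Nat.pos_of_ne_zero (Int.natAbs_ne_zero.2 (hG.1 j))) h2
    have h4 : (y + 1) ^ S.card < (y + 1) ^ (2 * k) := by
      calc (y + 1) ^ S.card ≤ X ^ 2 := h1.trans (h3.trans (hbd j))
        _ < ((y + 1) ^ k) ^ 2 := Nat.pow_lt_pow_left hk (by norm_num)
        _ = (y + 1) ^ (2 * k) := by rw [← pow_mul, mul_comm]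
    exact ((Nat.pow_lt_pow_iff_right (by omega)).1 h4).le
  refine (card_le_card hsub).trans ((card_union_le _ _).trans (add_le_add
    ((card_union_le _ _).trans (add_le_add ?_ ?_)) card_biUnion_le))
  · simp
  · refine card_biUnion_le.trans ?_
    refine (sum_le_sum fun j _ => hone j).trans ?_
    rw [sum_const, card_univ, smul_eq_mul]

/-- the rank of a twist is bounded by the local count -/
lemma rk (Q : Finset I) {a b : ℤ} (ha : a ≠ 0) (hb : b ≠ 0) (hab : a ≠ b) {z y X k : ℕ}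
    (hz : 2 ≤ z) (hκ : ∀ p : ℕ, p.Prime → z < p → ∀ k, ¬ (p : ℤ) ∣ kc a b k) {f : I → ℤ}
    (hG : Gd z f) (hbd : ∀ i, (f i).natAbs ≤ X ^ 2) (hX : 1 ≤ X) (hy : 1 ≤ y)
    (hk : X < (y + 1) ^ k) :
    2 ^ Module.finrank ℤ (EAB (a * ∏ i ∈ Q, f i) (b * ∏ i ∈ Q, f i)).toAffine.Point ≤
      4 ^ (z + 2) * (16 ^ Fintype.card I) ^ k * 4 ^ (∑ i, (S2 z y f i).primeFactors.card) *
        NL (∏ i ∈ Q, S1 z y f i) (LC (kc a b) (ng (∏ i ∈ Q, S1 z y f i) (∏ i ∈ Q, f i))) := by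
  set d := ∏ i ∈ Q, f i with hd
  set m := ∏ i ∈ Q, S1 z y f i with hm
  have hd0 : d ≠ 0 := prod_ne_zero_iff.2 fun i _ => hG.1 i
  have hmem : S1 z y f ∈ Tup I z y := S1_mem hG
  have hmd : m ∣ PP z y := by
    refine dvd_trans ?_ (Tup_prod_dvd hmem)
    exact prod_dvd_prod_of_subset _ _ _ (subset_univ _)
  have hPSof : ∀ p : ℕ, p.Prime → p ∣ m → p ∈ PS z y := fun p hp h =>
    (prime_dvd_PP hp).1 (h.trans hmd)
  have hnκ : ∀ p : ℕ, p.Prime → p ∣ m → ∀ k, ¬ (p : ℤ) ∣ kc a b k := by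
    intro p hp h
    exact hκ p hp (mem_PS.1 (hPSof p hp h)).1.1
  have hodd : ∀ p : ℕ, p.Prime → p ∣ m → p ≠ 2 := by
    intro p hp h
    have h1 := (mem_PS.1 (hPSof p hp h)).1.1
    omega
  have hdd := Pool.Agent.W214.RK2.desc4 m (LC (kc a b) (ng m d)) (a * d) (b * d)
    (mul_ne_zero ha hd0) (mul_ne_zero hb hd0) (fun h => hab (mul_right_cancel₀ hd0 h))
    (by
      rw [← Nat.not_even_iff_odd, even_iff_two_dvd]
      intro h
      exact hodd 2 Nat.prime_two h rfl)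
    ((PP_squarefree z y).squarefree_of_dvd hmd)
    (fun p hp hpd => Pool.Agent.W342.RK2.xcl _ _ _ p hp (hodd p hp hpd) (hnκ p hp hpd))
    (fun p hp hpd x x' hx' hcurve e1 e2 he1 he2 hsq1 hsq2 => by
      have hpp : p.Prime := Fact.out
      obtain ⟨i, hi, hpi⟩ := dvd_m hpp hpd
      have h2 := dvd_tw hG hpp hi hpi
      refine Pool.Agent.W342.RK2.locl 3 (kc a b) _ p _ _ (hodd p hpp hpd) (hnκ p hpp hpd)
        (locT hpp (hnκ p hpp hpd) h2.1 h2.2 ?_) x x' hx' hcurve e1 e2 he1 he2 hsq1 hsq2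
      rw [decide_eq_true_eq]
      unfold ng
      rw [mem_filter, Nat.mem_primeFactors]
      constructor
      · rintro ⟨_, h5⟩
        exact h5
      · intro h5
        exact ⟨⟨hpp, hpd, ((PP_squarefree z y).squarefree_of_dvd hmd).ne_zero⟩, h5⟩)
  refine hdd.trans (Nat.mul_le_mul_right _ ?_)
  have hc := badT Q hz hκ hG hbd hX hy hk (a := a) (b := b)
  rw [← hd, ← hm] at hc
  calc 4 ^ (((2 * (a * d) * (b * d) * (a * d - b * d)).natAbs.primeFactors.filter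
        (fun q => ¬ q ∣ m)).card + 2)
      ≤ 4 ^ ((z + 2) + (Fintype.card I * (2 * k)) + ∑ i, (S2 z y f i).primeFactors.card) :=
        Nat.pow_le_pow_right (by norm_num) (by omega)
    _ = _ := by
        rw [pow_add, pow_add]
        congr 2
        rw [← pow_mul, show (16 : ℕ) = 4 ^ 2 by norm_num, ← pow_mul]
        congr 1
        ring

end Pool.Agent.V7H45.BF
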