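import Pool.Agent.W29.RT.CNT2
import Pool.Agent.W340.RT.SVR2
import Pool.Agent.V7H45.BF.RKc

/-!
# The number of the parameters with given small prime factors and given signs

One of the two variables is fixed. Adapted from `Pool.Agent.W372.RK2.CNT4` and
`Pool.Agent.W29.RT.CNT2`.
-/

set_option autoImplicit false
set_option linter.unusedSectionVars false

namespace Pool.Agent.V7H45.BF

open Finset Pool.Agent.W262.RK Pool.Agent.W307.RT Pool.Agent.W29.RT
open Pool.Agent.W372.RK2 (sq_pow_dvd mj mj_primes prod_gw WW card_Phi)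

variable {I : Type} [Fintype I] [DecidableEq I]

lemma mT {z y : ℕ} {d : I → ℕ} : d ∈ Tup I z y ↔
    (∀ i, d i ∈ (PP z y).divisors) ∧ ∀ i j, i ≠ j → (d i).Coprime (d j) :=
  Pool.Agent.W372.RK2.mem_Tup'

/-- the classes -/
def cQ (Q : Finset I) (j : I) : Fin 4 := if j ∈ Q then 3 else 0

lemma cQ_iff {Q : Finset I} {j : I} : cQ Q j = 3 ↔ j ∈ Q := by
  unfold cQ
  split_ifs with h
  · exact ⟨fun _ => h, fun _ => rfl⟩
  · exact ⟨fun h1 => absurd h1 (by decide), fun h1 => absurd h1 h⟩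

lemma filter_cQ (Q : Finset I) : univ.filter (fun j => cQ Q j = 3) = Q := by
  ext j
  rw [mem_filter, cQ_iff]
  exact ⟨fun h => h.2, fun h => ⟨mem_univ _, h⟩⟩

lemma P3_cQ (Q : Finset I) (s : I → ℕ) : P3 (cQ Q) s = (∏ j ∈ Q, s j).primeFactors := by
  unfold P3
  rw [filter_cQ]

/-- the factor of the second variable -/
noncomputable def hw (c z w : ℕ) : ℝ :=
  ∏ p ∈ w.primeFactors.filter (fun p => z < p), (p : ℝ) / ((p : ℝ) - c)

variable {z y Y : ℕ} {s v u : I → ℕ} {f f' : I → ℤ} {α β : I → ℤ} {cls : I → Fin 4}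
  {Q : Finset I}

lemma fmjT (g : G2 z y s v u f) (hu : u ∈ Tup I y Y) (hzy : z < y) {p : ℕ}
    (hp : p.Prime) {j : I} (h : p ∣ mj cls s v u j) : z < p ∧ (p : ℤ) ∣ f j := by
  unfold mj at h
  have hs : p ∣ s j → z < p ∧ (p : ℤ) ∣ f j := fun h' =>
    ⟨(mem_PS.1 (g.fs hp h').1).1.1, (g.fs hp h').2.1⟩
  rcases hp.dvd_mul.1 h with h | h
  · rcases hp.dvd_mul.1 h with h | h
    · rcases hp.dvd_mul.1 h with h | h
      · exact hs h
      · split_ifs at h
        · exact hs h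
        · exact absurd (Nat.dvd_one.1 h) hp.one_lt.ne'
    · have h' := g.fv hp (hp.dvd_of_dvd_pow h)
      exact ⟨(mem_PS.1 h'.1).1.1, (dvd_pow_self (p : ℤ) two_ne_zero).trans h'.2⟩
  · have h' := g.fu hu hp h
    exact ⟨hzy.trans h'.1, h'.2⟩

/-- two counted `t` with the same residues are congruent -/
lemma congT (hα : ∀ p : ℕ, p.Prime → z < p → ∀ j, ¬ (p : ℤ) ∣ α j) (hzy : z < y)
    (hs : s ∈ Tup I z y) (hv : v ∈ Tup I z y) (hu : u ∈ Tup I y Y) {t t' : ℤ}
    (g : G2 z y s v u f) (g' : G2 z y s v u f') (hf : ∀ j, f j - f' j = α j * (t - t'))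
    (h3 : ∀ j, cls j = 3 → ∀ p : ℕ, p.Prime → p ∣ s j → (p : ℤ) ^ 2 ∣ f j - f' j) :
    ((∏ j, mj cls s v u j : ℕ) : ℤ) ∣ t - t' := by
  have hs' := (mT.1 hs).1
  have hv' := (mT.1 hv).1
  have hu' := (mT.1 hu).1
  rw [Nat.cast_prod]
  apply Finset.prod_dvd_of_coprime
  · intro j _ l _ hjl
    rw [Function.onFun, Nat.isCoprime_iff_coprime]
    apply Nat.coprime_of_dvd
    intro p hp hpj hpl
    have h1 := fmjT g hu hzy hp hpj
    have h2 := fmjT g hu hzy hp hpl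
    exact hjl (g.un p hp h1.1 j l h1.2 h2.2)
  intro j _
  have hdiv : ∀ d : ℕ, (∀ p : ℕ, p.Prime → p ∣ d → z < p) →
      (d : ℤ) ∣ f j - f' j → (d : ℤ) ∣ t - t' := by
    intro d hd h
    rw [hf] at h
    exact (al_coprime hα j hd).dvd_of_dvd_mul_left h
  have hsz : ∀ p : ℕ, p.Prime → p ∣ s j → z < p := fun p hp h => (dv_prime (hs' j) hp h).1
  have hvz : ∀ p : ℕ, p.Prime → p ∣ v j → z < p := fun p hp h => (dv_prime (hv' j) hp h).1
  have huz : ∀ p : ℕ, p.Prime → p ∣ u j → z < p := fun p hp h =>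
    hzy.trans (dv_prime (hu' j) hp h).1
  have h1 : ((s j : ℕ) : ℤ) ∣ f j - f' j := by
    have h := sq_pow_dvd (dv_squarefree (hs' j)) 1 (f j - f' j)
      (fun p hp hpd => by
        rw [pow_one]
        exact dvd_sub (g.fs hp hpd).2.1 (g'.fs hp hpd).2.1)
    rwa [pow_one] at h
  have h2 : ((v j ^ 2 : ℕ) : ℤ) ∣ f j - f' j := by
    have h := sq_pow_dvd (dv_squarefree (hv' j)) 2 (f j - f' j)
      (fun p hp hpd => dvd_sub (g.fv hp hpd).2 (g'.fv hp hpd).2)
    exact_mod_cast h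
  have h4 : ((u j : ℕ) : ℤ) ∣ f j - f' j := dvd_sub (g.hu j) (g'.hu j)
  have h5 : ((s j * (if cls j = 3 then s j else 1) : ℕ) : ℤ) ∣ t - t' := by
    split_ifs with hc
    · apply hdiv
      · intro p hp h
        rcases hp.dvd_mul.1 h with h | h <;> exact hsz p hp h
      · have h := sq_pow_dvd (dv_squarefree (hs' j)) 2 (f j - f' j)
          (fun p hp hpd => h3 j hc p hp hpd)
        rw [sq] at h
        exact_mod_cast h
    · rw [mul_one]
      exact hdiv _ hsz h1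
  have h6 : ((v j ^ 2 : ℕ) : ℤ) ∣ t - t' :=
    hdiv _ (fun p hp h => hvz p hp (hp.dvd_of_dvd_pow h)) h2
  have h7 : ((u j : ℕ) : ℤ) ∣ t - t' := hdiv _ huz h4
  have hcop1 : IsCoprime ((s j * (if cls j = 3 then s j else 1) : ℕ) : ℤ)
      ((v j ^ 2 : ℕ) : ℤ) := by
    rw [Nat.isCoprime_iff_coprime]
    apply Nat.coprime_of_dvd
    intro p hp hps hpv
    have hps' : p ∣ s j := by
      rcases hp.dvd_mul.1 hps with h | h
      · exact h
      · split_ifs at h
        · exact h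
        · exact absurd (Nat.dvd_one.1 h) hp.one_lt.ne'
    exact (g.fs hp hps').2.2 (g.fv hp (hp.dvd_of_dvd_pow hpv)).2
  have hcop2 : IsCoprime ((s j * (if cls j = 3 then s j else 1) * v j ^ 2 : ℕ) : ℤ)
      ((u j : ℕ) : ℤ) := by
    rw [Nat.isCoprime_iff_coprime]
    apply Nat.coprime_of_dvd
    intro p hp hps hpu
    have h8 : y < p := (g.fu hu hp hpu).1
    have h9 : p ≤ y := by
      rcases hp.dvd_mul.1 hps with h | h
      · rcases hp.dvd_mul.1 h with h | h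
        · exact (dv_prime (hs' j) hp h).2
        · split_ifs at h
          · exact (dv_prime (hs' j) hp h).2
          · exact absurd (Nat.dvd_one.1 h) hp.one_lt.ne'
      · exact (dv_prime (hv' j) hp (hp.dvd_of_dvd_pow h)).2
    omega
  unfold mj
  rw [Nat.cast_mul]
  refine hcop2.mul_dvd ?_ h7
  rw [Nat.cast_mul]
  exact hcop1.mul_dvd h5 h6

/-- the product over the primes of the modulus -/
lemma prod_prT (hs : s ∈ Tup I z y) (hv : v ∈ Tup I z y)
    (hu : u ∈ Tup I y Y) (g : G2 z y s v u f) :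
    ∏ p ∈ (∏ j, mj cls s v u j).primeFactors.filter (fun p => p ∈ PS z y),
      (p : ℝ) / ((p : ℝ) - Fintype.card I) =
    ∏ j, ((s j * gw 1 (Fintype.card I) (s j)) * (v j * gw 1 (Fintype.card I) (v j))) := by
  have hs' := (mT.1 hs).1
  have hv' := (mT.1 hv).1
  have key : ∀ j p, p ∈ (s j).primeFactors ∪ (v j).primeFactors →
      p.Prime ∧ z < p ∧ (p : ℤ) ∣ f j := by
    intro j p hp
    rcases mem_union.1 hp with hp | hp
    · have h1 := Nat.prime_of_mem_primeFactors hp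
      have h2 := g.fs h1 (Nat.dvd_of_mem_primeFactors hp)
      exact ⟨h1, (mem_PS.1 h2.1).1.1, h2.2.1⟩
    · have h1 := Nat.prime_of_mem_primeFactors hp
      have h2 := g.fv h1 (Nat.dvd_of_mem_primeFactors hp)
      exact ⟨h1, (mem_PS.1 h2.1).1.1, (dvd_pow_self (p : ℤ) two_ne_zero).trans h2.2⟩
  rw [mj_primes hs hv hu, prod_biUnion]
  · apply prod_congr rfl
    intro j _
    rw [prod_union, prod_gw (hs' j), prod_gw (hv' j)]
    rw [Finset.disjoint_left]
    intro p h1 h2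
    have hp := Nat.prime_of_mem_primeFactors h1
    exact (g.fs hp (Nat.dvd_of_mem_primeFactors h1)).2.2
      (g.fv hp (Nat.dvd_of_mem_primeFactors h2)).2
  · intro j _ l _ hjl
    rw [Function.onFun, Finset.disjoint_left]
    intro p h1 h2
    have h3 := key j p h1
    have h4 := key l p h2
    exact hjl (g.un p h3.1 h3.2.1 j l h3.2.2 h4.2.2)

/-- the residues of the quotients -/
def PhiT (Q : Finset I) (s : I → ℕ) (f : I → ℤ) (p : P3 (cQ Q) s) : ℕ :=
  (((∏ j ∈ Q, f j) / (p.1 : ℤ)) % (p.1 : ℤ)).toNat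

lemma exQ {p : ℕ} (hp : p ∈ P3 (cQ Q) s) : ∃ j ∈ Q, p ∣ s j := by
  rw [P3_cQ] at hp
  have h1 := Nat.prime_of_mem_primeFactors hp
  exact (h1.prime.dvd_finsetProd_iff _).1 (Nat.dvd_of_mem_primeFactors hp)

/-- the product of the values is divisible by `p` exactly once -/
lemma twG (g : G2 z y s v u f) {p : ℕ} (hp : p.Prime) {j : I} (hj : j ∈ Q) (hpj : p ∣ s j) :
    (p : ℤ) ∣ ∏ l ∈ Q, f l ∧ ¬ (p : ℤ) ^ 2 ∣ ∏ l ∈ Q, f l ∧ ¬ (p : ℤ) ∣ ∏ l ∈ Q.erase j, f l := by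
  have hP : Prime (p : ℤ) := Nat.prime_iff_prime_int.1 hp
  obtain ⟨h1, h2, h3⟩ := g.fs hp hpj
  have h5 : ¬ (p : ℤ) ∣ ∏ l ∈ Q.erase j, f l := by
    intro h4
    obtain ⟨l, hl, hl2⟩ := (hP.dvd_finsetProd_iff _).1 h4
    exact (ne_of_mem_erase hl) (g.un p hp (mem_PS.1 h1).1.1 l j hl2 h2)
  refine ⟨h2.trans (dvd_prod_of_mem _ hj), fun h => h3 ?_, h5⟩
  rw [← mul_prod_erase _ _ hj] at h
  exact (IsCoprime.pow_left ((Prime.coprime_iff_not_dvd hP).2 h5)).dvd_of_dvd_mul_right h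

lemma PhiT_mem (g : G2 z y s v u f) {E : Finset ℕ}
    (hE : ng (∏ j ∈ Q, s j) (∏ j ∈ Q, f j) = E) :
    PhiT Q s f ∈ Fintype.piFinset (fun p : P3 (cQ Q) s => WW E p.1) := by
  rw [Fintype.mem_piFinset]
  rintro ⟨p, hp3⟩
  obtain ⟨j, hjQ, hps⟩ := exQ hp3
  have hp3' := hp3
  rw [P3_cQ] at hp3'
  have hp : p.Prime := Nat.prime_of_mem_primeFactors hp3'
  unfold WW PhiT
  simp only
  obtain ⟨hd, hd2, -⟩ := twG (Q := Q) g hp hjQ hps
  set d := ∏ l ∈ Q, f l with hdd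
  have hpos : (0 : ℤ) < p := by exact_mod_cast hp.pos
  have h0 : 0 ≤ (d / (p : ℤ)) % (p : ℤ) := Int.emod_nonneg _ hpos.ne'
  rw [mem_filter, mem_range]
  constructor
  · have h1 := Int.emod_lt_of_pos (d / (p : ℤ)) hpos
    omega
  · rw [Int.toNat_of_nonneg h0, ← jacobiSym.mod_left]
    split_ifs with hpE
    · rw [← hE] at hpE
      unfold ng at hpE
      exact (mem_filter.1 hpE).2
    · have h1 : jacobiSym (d / (p : ℤ)) p ≠ -1 := by
        intro h
        apply hpE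
        rw [← hE]
        unfold ng
        exact mem_filter.2 ⟨hp3', h⟩
      have h2 : jacobiSym (d / (p : ℤ)) p ≠ 0 := by
        have : NeZero p := ⟨hp.ne_zero⟩
        rw [Ne, jacobiSym.eq_zero_iff_not_coprime, not_not, Int.gcd_comm]
        rw [Int.gcd_eq_natAbs, Int.natAbs_natCast]
        apply (hp.coprime_iff_not_dvd).2
        intro h
        apply hd2
        have h3 : (p : ℤ) ∣ d / (p : ℤ) := Int.natCast_dvd.2 h
        have h4 : d = p * (d / p) := (Int.mul_ediv_cancel' hd).symm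
        rw [h4, sq]
        exact mul_dvd_mul_left _ h3
      rcases jacobiSym.trichotomy (d / (p : ℤ)) p with h | h | h
      · exact absurd h h2
      · exact h
      · exact absurd h h1

lemma PhiT_congr (hα : ∀ p : ℕ, p.Prime → z < p → ∀ j, ¬ (p : ℤ) ∣ α j)
    (hs : s ∈ Tup I z y) {t t' : ℤ} (g : G2 z y s v u f)
    (g' : G2 z y s v u f') (hf : ∀ j, f j - f' j = α j * (t - t'))
    (h : PhiT Q s f = PhiT Q s f') (j : I)
    (hj : cQ Q j = 3) (p : ℕ) (hp : p.Prime) (hps : p ∣ s j) :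
    (p : ℤ) ^ 2 ∣ f j - f' j := by
  have hs' := (mT.1 hs).1
  have hjQ : j ∈ Q := cQ_iff.1 hj
  have hP : Prime (p : ℤ) := Nat.prime_iff_prime_int.1 hp
  have hp3 : p ∈ P3 (cQ Q) s := by
    rw [P3_cQ, Nat.mem_primeFactors]
    refine ⟨hp, hps.trans (dvd_prod_of_mem _ hjQ), ?_⟩
    exact prod_ne_zero_iff.2 fun i _ => dv_ne_zero (hs' i)
  have h1 := congrFun h ⟨p, hp3⟩
  unfold PhiT at h1
  simp only at h1
  have hpos : (0 : ℤ) < p := by exact_mod_cast hp.pos
  have h3 : ((∏ l ∈ Q, f l) / (p : ℤ)) % (p : ℤ) = ((∏ l ∈ Q, f' l) / (p : ℤ)) % (p : ℤ) := by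
    have h4 := Int.emod_nonneg ((∏ l ∈ Q, f l) / (p : ℤ)) hpos.ne'
    have h5 := Int.emod_nonneg ((∏ l ∈ Q, f' l) / (p : ℤ)) hpos.ne'
    omega
  have h6 : (p : ℤ) ∣ (∏ l ∈ Q, f l) / (p : ℤ) - (∏ l ∈ Q, f' l) / (p : ℤ) :=
    Int.ModEq.dvd (Eq.symm h3)
  obtain ⟨h7, h8, h9⟩ := g.fs hp hps
  obtain ⟨h7', h8', h9'⟩ := g'.fs hp hps
  have hzp := (mem_PS.1 h7).1.1
  -- congruent modulo `p`
  have htt : (p : ℤ) ∣ t - t' := by
    have h10 : (p : ℤ) ∣ α j * (t - t') := by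
      rw [← hf]
      exact dvd_sub h8 h8'
    exact (hP.dvd_or_dvd h10).resolve_left (hα p hp hzp j)
  have hR : (p : ℤ) ∣ (∏ l ∈ Q.erase j, f' l) - ∏ l ∈ Q.erase j, f l := by
    apply Int.ModEq.dvd
    refine Int.ModEq.prod fun l _ => ?_
    rw [Int.modEq_iff_dvd]
    have : f' l - f l = -(α l * (t - t')) := by rw [← hf]; ring
    rw [this]
    exact (htt.mul_left _).neg_right
  have hRn := (twG (Q := Q) g hp hjQ hps).2.2
  set R := ∏ l ∈ Q.erase j, f l with hRd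
  set R' := ∏ l ∈ Q.erase j, f' l with hRd'
  obtain ⟨q, hq⟩ := h8
  obtain ⟨q', hq'⟩ := h8'
  have e1 : (∏ l ∈ Q, f l) / (p : ℤ) = q * R := by
    rw [← mul_prod_erase _ _ hjQ, hq, mul_assoc, Int.mul_ediv_cancel_left _ hpos.ne']
  have e2 : (∏ l ∈ Q, f' l) / (p : ℤ) = q' * R' := by
    rw [← mul_prod_erase _ _ hjQ, hq', mul_assoc, Int.mul_ediv_cancel_left _ hpos.ne']
  rw [e1, e2] at h6
  have h10 : (p : ℤ) ∣ (q - q') * R := by
    have : (q - q') * R = (q * R - q' * R') + q' * (R' - R) := by ring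
    rw [this]
    exact dvd_add h6 (hR.mul_left _)
  have h11 := (hP.dvd_or_dvd h10).resolve_right hRn
  rw [hq, hq', ← mul_sub, sq]
  exact mul_dvd_mul_left _ h11


/-- the number of the `t` with given small prime factors and signs, the second variable fixed -/
theorem cntw (Q : Finset I) (α β : I → ℤ) (z : ℕ) (hB : Bg α β z) :
    ∃ (C : ℝ) (K y0 : ℕ), 0 ≤ C ∧ 1 ≤ K ∧ ∀ X y Y w : ℕ, y0 ≤ y → z < y → y ^ K ≤ X → w ≠ 0 →
    ∀ s ∈ Tup I z y, ∀ v ∈ Tup I z y, ∀ u ∈ Tup I y Y, (∏ j, s j * v j * u j) ^ 8 ≤ X →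
    ∀ E : Finset ℕ,
    (((Icc 1 X).filter (fun t : ℕ => t.Coprime w ∧ S1 z y (fv α β (t : ℤ) (w : ℤ)) = s ∧
      S2 z y (fv α β (t : ℤ) (w : ℤ)) = v ∧ (∀ j, (u j : ℤ) ∣ fv α β (t : ℤ) (w : ℤ) j) ∧
      ng (∏ j ∈ Q, s j) (∏ j ∈ Q, fv α β (t : ℤ) (w : ℤ) j) = E)).card : ℝ) ≤
      C * X * hw (Fintype.card I) z w * (1 / 2) ^ (∏ j ∈ Q, s j).primeFactors.card *
        (∏ j, gw 1 (Fintype.card I) (s j)) * (∏ j, gw 1 (Fintype.card I) (v j) / v j) *
        (∏ j, 1 / (u j : ℝ)) / (Real.log y) ^ (Fintype.card I) := by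
  obtain ⟨C, K, y0, hC, hK, hSV⟩ := Pool.Agent.W340.RT.SVR2.svr2 I z hB.1
  refine ⟨C, K, y0, hC, hK, ?_⟩
  intro X y Y w hy0 hzy hX hw0 s hs v hv u hu hsvu E
  set N := Fintype.card I with hN
  have hs' := (mT.1 hs).1
  have hv' := (mT.1 hv).1
  have hu' := (mT.1 hu).1
  have hz : 2 ≤ z := by have := hB.1; omega
  have hc : N ≤ z := by have := hB.1; omega
  have hlog : 0 ≤ (Real.log y) ^ N := pow_nonneg (Real.log_natCast_nonneg y) _
  have hgs : ∀ j, 0 ≤ gw 1 N (s j) := fun j => gw_nonneg zero_le_one hc (hs' j)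
  have hgv : ∀ j, 0 ≤ gw 1 N (v j) := fun j => gw_nonneg zero_le_one hc (hv' j)
  have hα : ∀ p : ℕ, p.Prime → z < p → ∀ j, ¬ (p : ℤ) ∣ α j := fun p hp hzp => (hB.2 p hp hzp).1
  set F : ℕ → I → ℤ := fun t => fv α β (t : ℤ) (w : ℤ) with hF
  set T := (Icc 1 X).filter (fun t : ℕ => t.Coprime w ∧ S1 z y (F t) = s ∧
      S2 z y (F t) = v ∧ (∀ j, (u j : ℤ) ∣ F t j) ∧
      ng (∏ j ∈ Q, s j) (∏ j ∈ Q, F t j) = E) with hT
  have hun : ∀ t : ℕ, t.Coprime w → ∀ p : ℕ, p.Prime → z < p → ∀ j l,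
      (p : ℤ) ∣ F t j → (p : ℤ) ∣ F t l → j = l := by
    intro t htw p hp hzp j l hj hl
    by_contra hne
    have hw := un_of hB htw hp hzp hj
    have h1 : Res α β j l * (w : ℤ) =
        α j * fv α β (t : ℤ) (w : ℤ) l - α l * fv α β (t : ℤ) (w : ℤ) j := by
      unfold Res fv
      ring
    have h3 : (p : ℤ) ∣ Res α β j l * (w : ℤ) := by
      rw [h1]
      exact dvd_sub (hl.mul_left _) (hj.mul_left _)
    have hpI : Prime (p : ℤ) := Nat.prime_iff_prime_int.1 hp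
    rcases hpI.dvd_or_dvd h3 with h | h
    · exact (hB.2 p hp hzp).2 j l hne h
    · exact hw (Int.natCast_dvd_natCast.1 h)
  have hgood : ∀ t ∈ T, G2 z y s v u (F t) ∧ ng (∏ j ∈ Q, s j) (∏ j ∈ Q, F t j) = E := by
    intro t ht
    rw [hT, mem_filter] at ht
    exact ⟨⟨ht.2.2.1, ht.2.2.2.1, ht.2.2.2.2.1, hun t ht.2.1⟩, ht.2.2.2.2.2⟩
  have hfsub : ∀ t t' : ℕ, ∀ j, F t j - F t' j = α j * ((t : ℤ) - (t' : ℤ)) := by
    intro t t' j
    simp only [hF]
    unfold fv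
    ring
  -- factors
  set g : ℕ → ℝ := fun p => (p : ℝ) / ((p : ℝ) - N) with hg
  have hg1 : ∀ p, z < p → 1 ≤ g p := by
    intro p hp
    have h1 : ((N : ℕ) : ℝ) < p := by exact_mod_cast lt_of_le_of_lt hc hp
    rw [hg]
    simp only
    rw [le_div_iff₀ (by linarith)]
    have : (0 : ℝ) ≤ ((N : ℕ) : ℝ) := Nat.cast_nonneg _
    linarith
  have hhw0 : 0 ≤ hw N z w := prod_nonneg fun p hp =>
    zero_le_one.trans (hg1 p (mem_filter.1 hp).2)
  rcases T.eq_empty_or_nonempty with hTe | ⟨t0, ht0⟩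
  · rw [hTe, card_empty, Nat.cast_zero]
    apply div_nonneg _ hlog
    have h1 : 0 ≤ ∏ j, gw 1 N (s j) := prod_nonneg fun j _ => hgs j
    have h2 : 0 ≤ ∏ j, gw 1 N (v j) / v j :=
      prod_nonneg fun j _ => div_nonneg (hgv j) (Nat.cast_nonneg _)
    have h3 : 0 ≤ ∏ j, 1 / (u j : ℝ) := prod_nonneg fun j _ => by positivity
    positivity
  set m := ∏ j, mj (cQ Q) s v u j with hm
  have hmj1 : ∀ j, 1 ≤ mj (cQ Q) s v u j := by
    intro j
    unfold mj
    have h1 := dv_pos (hs' j)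
    have h2 := dv_pos (hv' j)
    have h3 := dv_pos (hu' j)
    have h4 : 0 < (if cQ Q j = 3 then s j else 1) := by split_ifs <;> omega
    exact Nat.succ_le_of_lt (by positivity)
  have hm1 : 1 ≤ m := Nat.succ_le_of_lt (prod_pos fun j _ => hmj1 j)
  have hm4 : m ^ 4 ≤ X := by
    refine le_trans ?_ hsvu
    have h1 : m ≤ (∏ j, s j * v j * u j) ^ 2 := by
      rw [← prod_pow]
      apply prod_le_prod'
      intro j _
      unfold mj
      have h1 := dv_pos (hs' j)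
      have h3 := dv_pos (hu' j)
      have h4 : (if cQ Q j = 3 then s j else 1) ≤ s j := by split_ifs <;> omega
      calc s j * (if cQ Q j = 3 then s j else 1) * v j ^ 2 * u j
          ≤ s j * s j * v j ^ 2 * (u j * u j) := by
            apply Nat.mul_le_mul
            · exact Nat.mul_le_mul_right _ (Nat.mul_le_mul_left _ h4)
            · nlinarith
        _ = (s j * v j * u j) ^ 2 := by ring
    calc m ^ 4 ≤ ((∏ j, s j * v j * u j) ^ 2) ^ 4 := Nat.pow_le_pow_left h1 4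
      _ = (∏ j, s j * v j * u j) ^ 8 := by rw [← pow_mul]
  have hsq := (hgood t0 ht0).1
  set Gm : ℝ := ∏ p ∈ m.primeFactors.filter (fun p => p ∈ PS z y), g p with hGm
  have hGm0 : 0 ≤ Gm := prod_nonneg fun p hp =>
    zero_le_one.trans (hg1 p (mem_PS.1 (mem_filter.1 hp).2).1.1)
  have hmul : ∏ p ∈ (m * w).primeFactors.filter (fun p => p ∈ PS z y), g p ≤ Gm * hw N z w := by
    have e1 : (m * w).primeFactors.filter (fun p => p ∈ PS z y) =
        m.primeFactors.filter (fun p => p ∈ PS z y) ∪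
          (w.primeFactors.filter (fun p => p ∈ PS z y) \
            m.primeFactors.filter (fun p => p ∈ PS z y)) := by
      rw [union_sdiff_self_eq_union, Nat.primeFactors_mul (by omega) hw0, filter_union]
    rw [e1, prod_union disjoint_sdiff]
    apply mul_le_mul_of_nonneg_left _ hGm0
    have e2 : (w.primeFactors.filter (fun p => p ∈ PS z y) \
        m.primeFactors.filter (fun p => p ∈ PS z y)) ⊆
        w.primeFactors.filter (fun p => z < p) := by
      intro p hp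
      rw [mem_sdiff, mem_filter] at hp
      rw [mem_filter]
      exact ⟨hp.1.1, (mem_PS.1 hp.1.2).1.1⟩
    unfold hw
    rw [← prod_sdiff e2]
    apply le_mul_of_one_le_left
    · exact prod_nonneg fun p hp => zero_le_one.trans (hg1 p (mem_filter.1 (e2 hp)).2)
    · have h1 : ∀ p ∈ w.primeFactors.filter (fun p => z < p) \
          (w.primeFactors.filter (fun p => p ∈ PS z y) \
            m.primeFactors.filter (fun p => p ∈ PS z y)), (1 : ℝ) ≤ g p := by
        intro p hp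
        exact hg1 p (mem_filter.1 (mem_sdiff.1 hp).1).2
      calc (1 : ℝ) = ∏ p ∈ w.primeFactors.filter (fun p => z < p) \
          (w.primeFactors.filter (fun p => p ∈ PS z y) \
            m.primeFactors.filter (fun p => p ∈ PS z y)), (1 : ℝ) := by simp
        _ ≤ _ := prod_le_prod (fun _ _ => zero_le_one) h1
  have hcond : ∀ p ∈ PS z y, ¬ p ∣ m * w → (∀ j, ¬ (p : ℤ) ∣ α j) ∧
      ∀ j l, j ≠ l → ¬ (p : ℤ) ∣ Res α (fun j => β j * (w : ℤ)) j l := by
    intro p hp hpm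
    have hpp := (mem_PS.1 hp).2
    have hzp := (mem_PS.1 hp).1.1
    refine ⟨(hB.2 p hpp hzp).1, fun j l hjl hd => ?_⟩
    have h1 : Res α (fun j => β j * (w : ℤ)) j l = Res α β j l * (w : ℤ) := by
      unfold Res
      ring
    rw [h1] at hd
    have hpI : Prime (p : ℤ) := Nat.prime_iff_prime_int.1 hpp
    rcases hpI.dvd_or_dvd hd with h | h
    · exact (hB.2 p hpp hzp).2 j l hjl h
    · exact hpm ((Int.natCast_dvd_natCast.1 h).mul_left _)
  -- bound for a fibre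
  set B : ℝ := C * (X / m) * (Gm * hw N z w) / (Real.log y) ^ N with hBdef
  have hbd : ∀ r : ℕ, (((Icc 1 X).filter (fun t : ℕ => t ≡ r [MOD m] ∧
      ∀ p ∈ PS z y, ¬ p ∣ m * w →
      ∀ j, ¬ (p : ℤ) ∣ ff α (fun j => β j * (w : ℤ)) t j)).card : ℝ) ≤ B := by
    intro r
    refine (hSV X y hy0 hzy hX α (fun j => β j * (w : ℤ)) m (m * w) r hm1
      (dvd_mul_right _ _) (mul_ne_zero (by omega) hw0) hm4 hcond).trans ?_
    apply div_le_div_of_nonneg_right _ hlog
    apply mul_le_mul_of_nonneg_left hmul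
    positivity
  have hfib : ∀ φ : P3 (cQ Q) s → ℕ,
      ((T.filter (fun t : ℕ => PhiT Q s (F t) = φ)).card : ℝ) ≤ B := by
    intro φ
    rcases (T.filter (fun t : ℕ => PhiT Q s (F t) = φ)).eq_empty_or_nonempty with
      he | ⟨r, hr⟩
    · rw [he, card_empty, Nat.cast_zero]
      exact le_trans (Nat.cast_nonneg _) (hbd 0)
    · refine le_trans ?_ (hbd r)
      rw [Nat.cast_le]
      apply card_le_card
      intro t ht
      rw [mem_filter] at ht hr
      have g1 := (hgood t ht.1).1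
      have g2 := (hgood r hr.1).1
      have htX : t ∈ Icc 1 X := (mem_filter.1 ht.1).1
      rw [mem_filter]
      refine ⟨htX, ?_, ?_⟩
      · have h1 := congT (cls := cQ Q) hα hzy hs hv hu g1 g2 (hfsub t r) (fun j hj p hp hps =>
          PhiT_congr hα hs g1 g2 (hfsub t r) (ht.2.trans hr.2.symm) j hj p hp hps)
        rw [← hm] at h1
        exact ((Nat.modEq_iff_dvd.2 h1)).symm
      · intro p hpP hpm j hpf
        have hp := (mem_PS.1 hpP).2
        apply hpm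
        apply Dvd.dvd.mul_right
        rw [hm]
        refine Dvd.dvd.trans ?_ (dvd_prod_of_mem _ (mem_univ j))
        unfold mj
        have hff : ff α (fun j => β j * (w : ℤ)) (t : ℤ) j = F t j := by
          simp only [hF]
          unfold ff fv
          ring
        rw [hff] at hpf
        by_cases h2 : (p : ℤ) ^ 2 ∣ F t j
        · have h3 : p ∣ v j := by
            rw [← g1.hv]
            exact (dvd_S2 hp).2 ⟨hpP, h2⟩
          exact (((h3.pow two_ne_zero).mul_left _).mul_right _)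
        · have h3 : p ∣ s j := by
            rw [← g1.hs]
            exact (dvd_S1 hp).2 ⟨hpP, hpf, h2⟩
          exact (((h3.mul_right _).mul_right _).mul_right _)
  have hB0 : 0 ≤ B := le_trans (Nat.cast_nonneg _) (hbd 0)
  have hcard : (T.card : ℝ) ≤
      ((Fintype.piFinset (fun p : P3 (cQ Q) s => WW E p.1)).card : ℝ) * B := by
    rw [card_eq_sum_card_fiberwise (f := fun t : ℕ => PhiT Q s (F t))
      (t := Fintype.piFinset (fun p : P3 (cQ Q) s => WW E p.1))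
      (fun t ht => PhiT_mem (hgood t ht).1 (hgood t ht).2)]
    rw [Nat.cast_sum]
    refine (sum_le_sum fun φ _ => hfib φ).trans ?_
    rw [sum_const, nsmul_eq_mul]
  refine hcard.trans ((mul_le_mul_of_nonneg_right (card_Phi hz hs E) hB0).trans ?_)
  rw [P3_cQ, hBdef, hm, hGm, hm, hg, prod_prT hs hv hu hsq, Nat.cast_prod]
  have hterm : ∀ j, ((if cQ Q j = 3 then s j else 1 : ℕ) : ℝ) * ((s j *
      gw 1 N (s j)) * (v j * gw 1 N (v j))) /
      ((mj (cQ Q) s v u j : ℕ) : ℝ) = gw 1 N (s j) *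
      (gw 1 N (v j) / v j) * (1 / (u j : ℝ)) := by
    intro j
    have h1 : (s j : ℝ) ≠ 0 := Nat.cast_ne_zero.2 (dv_ne_zero (hs' j))
    have h2 : (v j : ℝ) ≠ 0 := Nat.cast_ne_zero.2 (dv_ne_zero (hv' j))
    have h3 : (u j : ℝ) ≠ 0 := Nat.cast_ne_zero.2 (dv_ne_zero (hu' j))
    have h4 : ((if cQ Q j = 3 then s j else 1 : ℕ) : ℝ) ≠ 0 := by
      split_ifs
      · exact h1
      · simp
    unfold mj
    rw [Nat.cast_mul, Nat.cast_mul, Nat.cast_mul, Nat.cast_pow]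
    field_simp
  have hprod : (∏ j, ((if cQ Q j = 3 then s j else 1 : ℕ) : ℝ)) *
      (∏ j, ((s j * gw 1 N (s j)) * (v j * gw 1 N (v j)))) /
      (∏ j, ((mj (cQ Q) s v u j : ℕ) : ℝ)) = (∏ j, gw 1 N (s j)) *
        (∏ j, gw 1 N (v j) / v j) * (∏ j, 1 / (u j : ℝ)) := by
    rw [← prod_mul_distrib, ← prod_div_distrib, ← prod_mul_distrib, ← prod_mul_distrib]
    exact prod_congr rfl fun j _ => hterm j
  apply le_of_eq
  rw [show C * X * hw N z w * (1 / 2) ^ (∏ j ∈ Q, s j).primeFactors.card *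
        (∏ j, gw 1 N (s j)) * (∏ j, gw 1 N (v j) / v j) * (∏ j, 1 / (u j : ℝ)) =
      C * X * hw N z w * (1 / 2) ^ (∏ j ∈ Q, s j).primeFactors.card * ((∏ j, gw 1 N (s j)) *
        (∏ j, gw 1 N (v j) / v j) * (∏ j, 1 / (u j : ℝ))) by ring, ← hprod]
  ring

end Pool.Agent.V7H45.BF
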