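import Pool.Agent.V7H45.BF.ANTc
import Pool.Agent.V7H45.BF.CNTc
import Pool.Agent.V7H45.TM.Avg

/-!
# Moments of `2 ^ rank` of twists by values of forms, some of which are prime
-/

set_option autoImplicit false
set_option maxHeartbeats 1000000

namespace Pool.Agent.V7H45.BF

open Finset Pool.Agent.W262.RK Pool.Agent.W307.RT Pool.Agent.W45.RT Pool.Agent.W29.RT
  Pool.Agent.V7H45.TM

lemma kc_ne {a b : ℤ} (ha : a ≠ 0) (hb : b ≠ 0) (hab : a ≠ b) (k : Fin 3) : kc a b k ≠ 0 := by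
  unfold kc
  split_ifs
  · exact ha
  · exact hb
  · exact sub_ne_zero.2 hab

lemma NL_LC {J : Type} [Fintype J] [DecidableEq J] {z y : ℕ} {s : J → ℕ} (hs : s ∈ Tup J z y)
    (κ : Fin 3 → ℤ) (E : Finset ℕ) :
    NL (∏ j, s j) (LC κ E) = NL (∏ j, s j) (LLs (fun _ => 3) (fun _ => κ) s E) := by
  apply Pool.Agent.W125.RK2.NL_congr
  intro p hp
  have hpp := Nat.prime_of_mem_primeFactors hp
  obtain ⟨j, -, hj⟩ := (hpp.prime.dvd_finsetProd_iff _).1 (Nat.dvd_of_mem_primeFactors hp)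
  funext v w h g
  unfold LC LLs
  apply propext
  exact ⟨fun h1 _ _ => h1, fun h1 => h1 j hj⟩

section

variable {I : Type} [Fintype I] [DecidableEq I] {α β : I → ℤ} {z : ℕ}

/-- large primes divide at most one of the values -/
lemma gd_of (hB : Bg α β z) {t w : ℕ} (htw : t.Coprime w)
    (h0 : ∀ i, fv α β (t : ℤ) (w : ℤ) i ≠ 0) : Gd z (fv α β (t : ℤ) (w : ℤ)) := by
  refine ⟨h0, fun p hp hzp j l hne => ?_⟩
  rintro ⟨hj, hl⟩
  have hw := un_of hB htw hp hzp hj
  have h1 : Res α β j l * (w : ℤ) =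
      α j * fv α β (t : ℤ) (w : ℤ) l - α l * fv α β (t : ℤ) (w : ℤ) j := by
    unfold Res fv
    ring
  have h3 : (p : ℤ) ∣ Res α β j l * (w : ℤ) := by
    rw [h1]
    exact dvd_sub (hl.mul_left _) (hj.mul_left _)
  have hpI : Prime (p : ℤ) := Nat.prime_iff_prime_int.1 hp
  rcases hpI.dvd_or_dvd h3 with h | h
  · exact (hB.2 p hp hzp).2 j l hne h
  · exact hw (Int.natCast_dvd_natCast.1 h)

lemma fv_le (hα : ∀ i, (α i).natAbs + (β i).natAbs ≤ z) {X t w : ℕ} (ht : t ≤ X) (hw : w ≤ X)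
    (hX : z ≤ X) (i : I) : (fv α β (t : ℤ) (w : ℤ) i).natAbs ≤ X ^ 2 := by
  unfold fv
  have h3 := Int.natAbs_add_le (α i * (t : ℤ)) (β i * (w : ℤ))
  rw [Int.natAbs_mul, Int.natAbs_mul, Int.natAbs_natCast, Int.natAbs_natCast] at h3
  have h6 : (α i).natAbs + (β i).natAbs ≤ X := (hα i).trans hX
  nlinarith [Nat.zero_le (α i).natAbs, Nat.zero_le (β i).natAbs,
    Nat.mul_le_mul_left (α i).natAbs ht, Nat.mul_le_mul_left (β i).natAbs hw,
    Nat.mul_le_mul_right X h6]

/-- a prime value has no small prime factors -/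
lemma pr_val {y X : ℕ} {f : I → ℤ} {i : I} (hp : (f i).natAbs.Prime)
    (hX : X < (f i).natAbs ^ 2) (hy : y ^ 16 ≤ X) : S1 z y f i = 1 ∧ S2 z y f i = 1 := by
  have hyq : y < (f i).natAbs := by
    by_contra hcon
    rw [not_lt] at hcon
    have h1 : (f i).natAbs ^ 2 ≤ y ^ 2 := Nat.pow_le_pow_left hcon 2
    have hy0 : 0 < y := lt_of_lt_of_le hp.pos hcon
    have h2 : y ^ 2 ≤ y ^ 16 := Nat.pow_le_pow_right hy0 (by norm_num)
    omega
  have hnd : ∀ p ∈ PS z y, ¬ (p : ℤ) ∣ f i := by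
    intro p hpS h
    have h1 := (mem_PS.1 hpS).2
    have h2 := (Nat.prime_dvd_prime_iff_eq h1 hp).1 (Int.natCast_dvd.1 h)
    have h3 := (mem_PS.1 hpS).1.2
    omega
  unfold S1 S2
  constructor
  · rw [filter_false_of_mem, prod_empty]
    intro p hpS h
    exact hnd p hpS h.1
  · rw [filter_false_of_mem, prod_empty]
    intro p hpS h
    exact hnd p hpS ((dvd_pow_self (p : ℤ) two_ne_zero).trans h)

end

section

variable {J P : Type} [Fintype J] [DecidableEq J] [Fintype P] [DecidableEq P]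

/-- extension by one -/
def ex (s : J → ℕ) : J ⊕ P → ℕ := Sum.elim s (fun _ => 1)

lemma ex_mem {z y : ℕ} {s : J → ℕ} (hs : s ∈ Tup J z y) : (ex s : J ⊕ P → ℕ) ∈ Tup (J ⊕ P) z y := by
  rw [mem_Tup'] at hs ⊢
  constructor
  · rintro (j | p)
    · exact hs.1 j
    · exact one_dvd _
  · rintro (j | p) (l | q) hne
    · exact hs.2 j l (fun h => hne (by rw [h]))
    · exact Nat.coprime_one_right _
    · exact Nat.coprime_one_left _
    · exact Nat.coprime_one_left _

/-- the parameters -/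
def TT (W : ℕ → Finset ℕ) (α β : J ⊕ P → ℤ) (X : ℕ) : Finset (ℕ × ℕ) := by
  classical
  exact (Icc 1 X ×ˢ W X).filter (fun t : ℕ × ℕ => t.1.Coprime t.2 ∧
    (∀ i, fv α β (t.1 : ℤ) (t.2 : ℤ) i ≠ 0) ∧
    ∀ p : P, (fv α β (t.1 : ℤ) (t.2 : ℤ) (Sum.inr p)).natAbs.Prime ∧
      X < (fv α β (t.1 : ℤ) (t.2 : ℤ) (Sum.inr p)).natAbs ^ 2)

/-- the twist -/
def dd (Q1 : Finset P) (f : J ⊕ P → ℤ) : ℤ := ∏ i ∈ (univ : Finset J).disjSum Q1, f i

lemma log_pow_le {y k X : ℕ} (m : ℕ) (hy : 3 ≤ y) (hX : 1 ≤ X) (hk : X < (y + 1) ^ k) :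
    1 / (Real.log y) ^ m ≤ (4 ^ m) ^ k / (1 + Real.log X) ^ m := by
  have hyr : (3 : ℝ) ≤ y := by exact_mod_cast hy
  have hl1 : 1 < Real.log y := by
    rw [Real.lt_log_iff_exp_lt (by linarith)]
    have := Real.exp_one_lt_d9
    linarith
  have hXr : (1 : ℝ) ≤ X := by exact_mod_cast hX
  have hlX : 0 ≤ Real.log X := Real.log_nonneg hXr
  have hk1 : 1 ≤ k := by
    rcases Nat.eq_zero_or_pos k with h | h
    · subst h
      simp at hk
      omega
    · exact h
  have hkr : (1 : ℝ) ≤ k := by exact_mod_cast hk1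
  have h1 : Real.log X ≤ k * (2 * Real.log y) := by
    have h2 : (X : ℝ) ≤ ((y : ℝ) ^ 2) ^ k := by
      have h3 : X ≤ (y ^ 2) ^ k := by
        refine hk.le.trans (Nat.pow_le_pow_left ?_ k)
        nlinarith
      exact_mod_cast h3
    have h3 := Real.log_le_log (by linarith) h2
    rw [Real.log_pow, Real.log_pow] at h3
    exact_mod_cast h3
  have h4 : (3 * k : ℝ) ≤ 4 ^ k := by
    have h5 : ∀ n : ℕ, 1 ≤ n → 3 * n ≤ 4 ^ n := by
      intro n hn
      induction n, hn using Nat.le_induction with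
      | base => norm_num
      | succ n hn ih =>
        rw [pow_succ]
        omega
    exact_mod_cast h5 k hk1
  have h5 : 1 + Real.log X ≤ 4 ^ k * Real.log y := by
    calc 1 + Real.log X ≤ k * Real.log y + k * (2 * Real.log y) := by
          have : 1 ≤ k * Real.log y := by nlinarith
          linarith
      _ = (3 * k) * Real.log y := by ring
      _ ≤ 4 ^ k * Real.log y := mul_le_mul_of_nonneg_right h4 (by linarith)
  rw [div_le_div_iff₀ (by positivity) (by positivity), one_mul]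
  calc (1 + Real.log X) ^ m ≤ (4 ^ k * Real.log y) ^ m := pow_le_pow_left₀ (by positivity) h5 m
    _ = (4 ^ m) ^ k * Real.log y ^ m := by
        rw [mul_pow, ← pow_mul, ← pow_mul, mul_comm k m]

/-- **The core.** The `r`-th moment over the positive parameters; the forms of `P` have large prime
values. -/
theorem core (r : ℕ) (hr : 1 ≤ r) (a b : ℤ) (ha : a ≠ 0) (hb : b ≠ 0) (hab : a ≠ b)
    (α β : J ⊕ P → ℤ) (hα : ∀ j, α j ≠ 0) (hR : ∀ j l, j ≠ l → Res α β j l ≠ 0)
    (Q1 : Finset P) (W : ℕ → Finset ℕ) (V : ℕ → ℝ) (hW : ∀ X, ∀ w ∈ W X, w ≠ 0 ∧ w ≤ X)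
    (hWW : ∀ X Y, X ≤ Y → W X ⊆ W Y) (hV : ∀ X, 1 ≤ X → 0 < V X)
    (hsum : ∀ c z : ℕ, 2 * c + 2 ≤ z → ∃ CA : ℝ, 0 ≤ CA ∧ ∀ X, 1 ≤ X →
      ∑ w ∈ W X, hw c z w ≤ CA * V X) :
    ∃ C : ℝ, ∀ X : ℕ, 1 ≤ X → ∑ t ∈ TT W α β X,
      ((2 : ℝ) ^ Module.finrank ℤ
        (EAB (a * dd Q1 (fv α β (t.1 : ℤ) (t.2 : ℤ)))
          (b * dd Q1 (fv α β (t.1 : ℤ) (t.2 : ℤ)))).toAffine.Point) ^ r ≤
      C * (X * V X / (1 + Real.log X) ^ Fintype.card P) := by
  classical
  set N := Fintype.card (J ⊕ P) with hN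
  have hNs : N = Fintype.card J + Fintype.card P := Fintype.card_sum
  have hκ := kc_ne ha hb hab
  obtain ⟨z0, hz0⟩ := maK J r hr (fun _ => kc a b) N (fun _ k => hκ k)
  set z : ℕ := z0 + (2 * N + 2) + ∑ j, (α j).natAbs +
    ∑ j, ∑ l, (Res α β j l).natAbs + ∑ k, (kc a b k).natAbs with hz
  have hB : Bg α β z := by
    refine ⟨by omega, fun p hp hzp => ⟨fun j h => ?_, fun j l hjl h => ?_⟩⟩
    · have h1 := Nat.le_of_dvd (Int.natAbs_pos.2 (hα j)) (Int.natCast_dvd.1 h)
      have h2 := single_le_sum (f := fun j => (α j).natAbs) (fun _ _ => Nat.zero_le _) (mem_univ j)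
      omega
    · have h1 := Nat.le_of_dvd (Int.natAbs_pos.2 (hR j l hjl)) (Int.natCast_dvd.1 h)
      have h2 := single_le_sum (f := fun l => (Res α β j l).natAbs) (fun _ _ => Nat.zero_le _)
        (mem_univ l)
      have h3 := single_le_sum (f := fun j => ∑ l, (Res α β j l).natAbs) (fun _ _ => Nat.zero_le _)
        (mem_univ j)
      omega
  have hκz : ∀ k, (kc a b k).natAbs ≤ z := by
    intro k
    have h1 := single_le_sum (f := fun k => (kc a b k).natAbs) (fun _ _ => Nat.zero_le _)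
      (mem_univ k)
    omega
  have hκp : ∀ p : ℕ, p.Prime → z < p → ∀ k, ¬ (p : ℤ) ∣ kc a b k := by
    intro p hp hzp k h
    have h1 := Nat.le_of_dvd (Int.natAbs_pos.2 (hκ k)) (Int.natCast_dvd.1 h)
    have h2 := hκz k
    omega
  have hz2 : 2 ≤ z := by omega
  obtain ⟨C', hC'⟩ := hz0 z (by omega)
  set Q : Finset (J ⊕ P) := (univ : Finset J).disjSum Q1 with hQ
  obtain ⟨C, K, y0, hC0, hK1, hcn⟩ := cntw Q α β z hB
  obtain ⟨CA, hCA0, hCA⟩ := hsum N z hB.1
  set AB : ℕ := ∑ i, ((α i).natAbs + (β i).natAbs) with hAB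
  have hABi : ∀ i, (α i).natAbs + (β i).natAbs ≤ AB := fun i =>
    single_le_sum (f := fun j => (α j).natAbs + (β j).natAbs) (fun _ _ => Nat.zero_le _)
      (mem_univ i)
  set y1 : ℕ := y0 + AB + 1 with hy1
  set F : ℕ × ℕ → J ⊕ P → ℤ := fun t => fv α β (t.1 : ℤ) (t.2 : ℤ) with hF
  set Rk : ℕ × ℕ → ℝ := fun t => ((2 : ℝ) ^ Module.finrank ℤ
        (EAB (a * dd Q1 (F t)) (b * dd Q1 (F t))).toAffine.Point) ^ r with hRk
  have hTT : ∀ X, ∀ t ∈ TT W α β X, (t ∈ Icc 1 X ×ˢ W X) ∧ t.1.Coprime t.2 ∧ (∀ i, F t i ≠ 0) ∧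
      ∀ p : P, (F t (Sum.inr p)).natAbs.Prime ∧ X < (F t (Sum.inr p)).natAbs ^ 2 := by
    intro X t ht
    unfold TT at ht
    rw [mem_filter] at ht
    exact ht
  have hGdF : ∀ X, ∀ t ∈ TT W α β X, Gd z (F t) := by
    intro X t ht
    have h := hTT X t ht
    exact gd_of hB h.2.1 h.2.2.1
  have hb1 : (1 : ℝ) ≤ (4 : ℝ) ^ r := one_le_pow₀ (by norm_num)
  refine ant (b := (4 : ℝ) ^ r) hb1 N (TT W α β) (fun X => Icc 1 X ×ˢ W X)
    (fun t j => F t (Sum.inl j)) (fun X => X * V X / (1 + Real.log X) ^ Fintype.card P) z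
    (NBk r (fun _ => 3) (fun _ => kc a b)) Rk (C * CA * (4 ^ (z + 2)) ^ r) C'
    ((16 ^ N) ^ r * 4 ^ Fintype.card P) K y1 hB.1
    (fun X t ht => (hTT X t ht).1)
    (fun X Y hXY => product_subset_product (Icc_subset_Icc le_rfl hXY) (hWW X Y hXY))
    (fun X hX => ?_) (fun X t ht => ?_) (fun s => ?_) (fun t => by positivity) (by positivity)
    (one_le_mul_of_one_le_of_one_le (one_le_pow₀ (one_le_pow₀ (by norm_num)))
      (one_le_pow₀ (by norm_num))) hK1
    (fun y hy s e hse => subbk r (fun _ => 3) (fun _ => kc a b) z y hz2 (fun _ k => hκ k)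
      (fun _ k => hκz k) s e hse) hC' ?_
  · have h1 : (1 : ℝ) ≤ X := by exact_mod_cast hX
    have h2 := hV X hX
    have h3 : 0 ≤ Real.log X := Real.log_nonneg h1
    positivity
  · have h := hGdF X t ht
    exact ⟨fun j => h.1 _, fun p hp hzp j l hjl => h.2 p hp hzp _ _
      (fun h' => hjl (Sum.inl_injective h'))⟩
  · unfold NBk
    exact mul_nonneg (by positivity) (sum_nonneg fun _ _ => by positivity)
  intro X y Y k hy0 hzy hyK hy16 hY16 hk s hs v hv u hu h8 T' hT'X hT'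
  have hy00 : y0 ≤ y := by omega
  have hyX : y ≤ X := le_trans (Nat.le_self_pow (by omega) y) hyK
  have hX1 : 1 ≤ X := by omega
  have hXr : (1 : ℝ) ≤ X := by exact_mod_cast hX1
  have hlX : 0 ≤ Real.log X := Real.log_nonneg hXr
  have hVX := hV X hX1
  set m := ∏ j, s j with hm
  set κ := kc a b with hκd
  set g : Finset ℕ → ℝ := fun E => (NL m (LC κ E) : ℝ) ^ r with hg
  have hg0 : ∀ E, 0 ≤ g E := fun E => by positivity
  set En : ℕ × ℕ → Finset ℕ := fun t => ng m (∏ i ∈ Q, F t i) with hEn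
  -- the small prime factors of all the forms
  have hex : ∀ t ∈ T', S1 z y (F t) = ex s ∧ S2 z y (F t) = ex v := by
    intro t ht
    have h1 := hTT X t (hT'X ht)
    have h2 := hT' t ht
    constructor
    · funext i
      rcases i with j | p
      · exact congrFun h2.1 j
      · exact (pr_val (h1.2.2.2 p).1 (h1.2.2.2 p).2 hy16).1
    · funext i
      rcases i with j | p
      · exact congrFun h2.2.1 j
      · exact (pr_val (h1.2.2.2 p).1 (h1.2.2.2 p).2 hy16).2
  have hmQ : ∏ i ∈ Q, (ex s : J ⊕ P → ℕ) i = m := by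
    rw [hQ, prod_disjSum]
    simp [ex, hm]
  have hvs : ∑ i, ((ex v : J ⊕ P → ℕ) i).primeFactors.card = ∑ j, (v j).primeFactors.card := by
    rw [Fintype.sum_sum_type]
    simp [ex]
  have h1 : ∀ t ∈ T', Rk t ≤
      (4 ^ (z + 2)) ^ r * ((16 ^ N) ^ r) ^ k * ((4 : ℝ) ^ r) ^ (∑ j, (v j).primeFactors.card) *
        g (En t) := by
    intro t ht
    have h2 := hTT X t (hT'X ht)
    have h3 := mem_product.1 h2.1
    have hr4 := rk Q ha hb hab (X := X) (y := y) (k := k) hz2 hκp (hGdF X t (hT'X ht))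
      (fv_le hABi (mem_Icc.1 h3.1).2 (hW X t.2 h3.2).2 (by omega)) hX1 (by omega) hk
    rw [(hex t ht).1, (hex t ht).2, hmQ, hvs] at hr4
    have hr5 : ((2 : ℝ) ^ Module.finrank ℤ
        (EAB (a * ∏ i ∈ Q, F t i) (b * ∏ i ∈ Q, F t i)).toAffine.Point) ≤
        4 ^ (z + 2) * (16 ^ N) ^ k * 4 ^ (∑ j, (v j).primeFactors.card) *
          (NL m (LC κ (En t)) : ℝ) := by
      exact_mod_cast hr4
    calc Rk t ≤ (4 ^ (z + 2) * (16 ^ N) ^ k * 4 ^ (∑ j, (v j).primeFactors.card) *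
          (NL m (LC κ (En t)) : ℝ)) ^ r :=
          pow_le_pow_left₀ (by positivity) hr5 r
      _ = _ := by
          simp only [hg, mul_pow]
          congr 2
          · congr 1
            rw [← pow_mul, ← pow_mul, ← pow_mul, ← pow_mul]
            congr 1
            ring
          · rw [← pow_mul, ← pow_mul, mul_comm]
  have hneg : ∀ t ∈ T', En t ∈ m.primeFactors.powerset := by
    intro t _
    rw [mem_powerset]
    exact filter_subset _ _
  have h2 : ∑ t ∈ T', g (En t) =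
      ∑ E ∈ m.primeFactors.powerset, ((T'.filter (fun t => En t = E)).card : ℝ) * g E := by
    rw [← sum_fiberwise_of_maps_to hneg]
    refine sum_congr rfl fun E _ => ?_
    rw [← nsmul_eq_mul, ← sum_const]
    refine sum_congr rfl fun t ht => ?_
    rw [(mem_filter.1 ht).2]
  set A : ℝ := (1 / 2) ^ m.primeFactors.card * (∏ j, gw 1 N (s j)) *
        (∏ j, gw 1 N (v j) / v j) * (∏ j, 1 / (u j : ℝ)) / (Real.log y) ^ N with hA
  have hgw : ∀ {d : J → ℕ}, d ∈ Tup J z y → ∀ j, 0 ≤ gw 1 N (d j) := fun hd j =>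
    gw_nn (by have := hB.1; omega) hd j
  have hA0 : 0 ≤ A := by
    have e1 : 0 ≤ ∏ j, gw 1 N (s j) := prod_nonneg fun j _ => hgw hs j
    have e2 : 0 ≤ ∏ j, gw 1 N (v j) / v j :=
      prod_nonneg fun j _ => div_nonneg (hgw hv j) (Nat.cast_nonneg _)
    have e3 : 0 ≤ ∏ j, 1 / (u j : ℝ) := prod_nonneg fun j _ => by positivity
    have e4 : 0 ≤ (Real.log y) ^ N := pow_nonneg (Real.log_natCast_nonneg y) _
    positivity
  have h3 : ∀ E : Finset ℕ, ((T'.filter (fun t => En t = E)).card : ℝ) ≤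
      C * CA * (X * V X) * A := by
    intro E
    -- split according to the second variable
    have hmaps : ∀ t ∈ T'.filter (fun t => En t = E), t.2 ∈ W X := by
      intro t ht
      exact (mem_product.1 (hTT X t (hT'X (mem_filter.1 ht).1)).1).2
    rw [card_eq_sum_card_fiberwise (f := fun t : ℕ × ℕ => t.2) (t := W X) hmaps, Nat.cast_sum]
    have hfib : ∀ w ∈ W X, ((((T'.filter (fun t => En t = E)).filter
        (fun t => t.2 = w)).card : ℕ) : ℝ) ≤ C * X * A * hw N z w := by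
      intro w hwW
      have hc := hcn X y Y w hy00 hzy hyK (hW X w hwW).1 (ex s) (ex_mem hs) (ex v) (ex_mem hv)
        (ex u) (ex_mem hu) (by
          rw [Fintype.prod_sum_type]
          simpa [ex] using h8) E
      rw [hmQ, ← hN] at hc
      have e1 : (((T'.filter (fun t => En t = E)).filter (fun t => t.2 = w)).card : ℝ) ≤
          (((Icc 1 X).filter (fun t : ℕ => t.Coprime w ∧
            S1 z y (fv α β (t : ℤ) (w : ℤ)) = ex s ∧
            S2 z y (fv α β (t : ℤ) (w : ℤ)) = ex v ∧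
            (∀ j, ((ex u : J ⊕ P → ℕ) j : ℤ) ∣ fv α β (t : ℤ) (w : ℤ) j) ∧
            ng m (∏ j ∈ Q, fv α β (t : ℤ) (w : ℤ) j) = E)).card : ℝ) := by
        rw [Nat.cast_le]
        apply card_le_card_of_injOn (fun t : ℕ × ℕ => t.1)
        · intro t ht
          have ht' := mem_filter.1 (mem_coe.1 ht)
          have ht'' := mem_filter.1 ht'.1
          have e2 := hTT X t (hT'X ht''.1)
          have e3 := hex t ht''.1
          have e4 := hT' t ht''.1
          have e5 : t.2 = w := ht'.2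
          apply mem_coe.2
          rw [mem_filter]
          simp only
          rw [← e5]
          refine ⟨(mem_product.1 e2.1).1, e2.2.1, e3.1, e3.2, ?_, ht''.2⟩
          rintro (j | p)
          · exact e4.2.2 j
          · simp [ex]
        · intro t ht t' ht' h
          have e5 : t.2 = w := (mem_filter.1 (mem_coe.1 ht)).2
          have e6 : t'.2 = w := (mem_filter.1 (mem_coe.1 ht')).2
          exact Prod.ext h (e5.trans e6.symm)
      refine e1.trans (hc.trans (le_of_eq ?_))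
      rw [Fintype.prod_sum_type, Fintype.prod_sum_type, Fintype.prod_sum_type]
      have e7 : gw 1 N 1 = 1 := by simp [gw]
      simp only [ex, Sum.elim_inl, Sum.elim_inr, e7, Nat.cast_one, div_one, prod_const_one,
        mul_one]
      rw [hA]
      ring
    refine (sum_le_sum hfib).trans ?_
    rw [← mul_sum]
    have e8 : 0 ≤ C * X * A := by positivity
    calc C * X * A * ∑ w ∈ W X, hw N z w ≤ C * X * A * (CA * V X) :=
          mul_le_mul_of_nonneg_left (hCA X hX1) e8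
      _ = _ := by ring
  have hlog := log_pow_le (Fintype.card P) (show 3 ≤ y by omega) hX1 hk
  -- the conclusion
  set A' : ℝ := (1 / 2) ^ m.primeFactors.card * (∏ j, gw 1 N (s j)) *
        (∏ j, gw 1 N (v j) / v j) * (∏ j, 1 / (u j : ℝ)) / (Real.log y) ^ Fintype.card J with hA'
  have hA'0 : 0 ≤ A' := by
    have e1 : 0 ≤ ∏ j, gw 1 N (s j) := prod_nonneg fun j _ => hgw hs j
    have e2 : 0 ≤ ∏ j, gw 1 N (v j) / v j :=
      prod_nonneg fun j _ => div_nonneg (hgw hv j) (Nat.cast_nonneg _)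
    have e3 : 0 ≤ ∏ j, 1 / (u j : ℝ) := prod_nonneg fun j _ => by positivity
    have e4 : 0 ≤ (Real.log y) ^ Fintype.card J := pow_nonneg (Real.log_natCast_nonneg y) _
    positivity
  have hAA : A ≤ A' * ((4 ^ Fintype.card P) ^ k / (1 + Real.log X) ^ Fintype.card P) := by
    have e1 : A = A' * (1 / (Real.log y) ^ Fintype.card P) := by
      rw [hA, hA', hNs, pow_add]
      ring
    rw [e1]
    exact mul_le_mul_of_nonneg_left hlog hA'0
  have h4 : ∀ E : Finset ℕ, ((T'.filter (fun t => En t = E)).card : ℝ) ≤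
      C * CA * (X * V X) *
        (A' * ((4 ^ Fintype.card P) ^ k / (1 + Real.log X) ^ Fintype.card P)) := fun E =>
    (h3 E).trans (mul_le_mul_of_nonneg_left hAA (by positivity))
  set Q' : ℝ := C * CA * (X * V X) *
        (A' * ((4 ^ Fintype.card P) ^ k / (1 + Real.log X) ^ Fintype.card P)) with hQ'
  have eNB : NBk r (fun _ => 3) (fun _ => κ) s =
      (1 / 2) ^ m.primeFactors.card * ∑ E ∈ m.primeFactors.powerset, g E := by
    have hP3 : P3 (fun _ : J => (3 : Fin 4)) s = m.primeFactors := by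
      unfold P3
      simp [hm]
    unfold NBk
    rw [hP3]
    congr 1
    refine sum_congr rfl fun E _ => ?_
    simp only [hg]
    rw [hm, NL_LC hs]
  have e2 : (∏ j, ((4 : ℝ) ^ r) ^ (v j).primeFactors.card * (gw 1 N (v j) / v j)) =
      ((4 : ℝ) ^ r) ^ (∑ j, (v j).primeFactors.card) * ∏ j, (gw 1 N (v j) / v j) := by
    rw [prod_mul_distrib, prod_pow_eq_pow_sum]
  calc ∑ t ∈ T', Rk t
      ≤ ∑ t ∈ T', (4 ^ (z + 2)) ^ r * ((16 ^ N) ^ r) ^ k *
          ((4 : ℝ) ^ r) ^ (∑ j, (v j).primeFactors.card) * g (En t) := sum_le_sum h1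
    _ = (4 ^ (z + 2)) ^ r * ((16 ^ N) ^ r) ^ k *
          ((4 : ℝ) ^ r) ^ (∑ j, (v j).primeFactors.card) *
          ∑ E ∈ m.primeFactors.powerset,
            ((T'.filter (fun t => En t = E)).card : ℝ) * g E := by
        rw [← mul_sum, h2]
    _ ≤ (4 ^ (z + 2)) ^ r * ((16 ^ N) ^ r) ^ k *
          ((4 : ℝ) ^ r) ^ (∑ j, (v j).primeFactors.card) *
          ∑ E ∈ m.primeFactors.powerset, Q' * g E := by
        refine mul_le_mul_of_nonneg_left (sum_le_sum fun E _ => ?_) (by positivity)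
        exact mul_le_mul_of_nonneg_right (h4 E) (hg0 E)
    _ = _ := by
        rw [← mul_sum, eNB, e2, hQ', hA', mul_pow]
        ring

end

end Pool.Agent.V7H45.BF
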