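import Pool.Agent.V7H45.BF.Sgn
import Pool.Agent.W216.RT.AVH

/-!
# One and two variables
-/

set_option autoImplicit false
set_option maxHeartbeats 1000000

namespace Pool.Agent.V7H45.BF

open Finset Pool.Agent.W262.RK Pool.Agent.W307.RT Pool.Agent.V7H45.TM

/-- all the second variables -/
lemma wvBin : WV (fun X => Icc 1 X) (fun X => (X : ℝ)) := by
  refine ⟨fun X w hw => ?_, fun X Y h => Icc_subset_Icc le_rfl h, fun X hX => ?_,
    fun c z hz => ?_⟩
  · rw [mem_Icc] at hw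
    exact ⟨by omega, hw.2⟩
  · exact_mod_cast hX
  · obtain ⟨C, hC0, hC⟩ := Pool.Agent.W216.RT.AVH.avh c z hz
    exact ⟨C, hC0, fun X _ => hC X⟩

/-- the second variable is one -/
lemma wvUna : WV (fun X => if 1 ≤ X then {1} else ∅) (fun _ => (1 : ℝ)) := by
  refine ⟨fun X w hw => ?_, fun X Y h => ?_, fun X _ => le_rfl, fun c z _ => ?_⟩
  · have hw' : w ∈ (if 1 ≤ X then ({1} : Finset ℕ) else ∅) := hw
    split_ifs at hw' with h
    · rw [mem_singleton] at hw'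
      subst hw'
      exact ⟨one_ne_zero, h⟩
    · exact absurd hw' (notMem_empty _)
  · show (if 1 ≤ X then ({1} : Finset ℕ) else ∅) ⊆ (if 1 ≤ Y then ({1} : Finset ℕ) else ∅)
    split_ifs with h1 h2
    · exact Subset.refl _
    · omega
    · exact empty_subset _
    · exact Subset.refl _
  · refine ⟨1, zero_le_one, fun X hX => ?_⟩
    rw [if_pos hX, sum_singleton]
    unfold hw
    simp

section

variable {ι : Type} [Fintype ι] [DecidableEq ι] (P Q : Finset ι)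

/-- the index map -/
def gm : {i // i ∈ Q \ P} ⊕ {i // i ∈ P} → ι := Sum.elim Subtype.val Subtype.val

lemma gm_inj : Function.Injective (gm P Q) := by
  rintro (i | i) (j | j) h
  · exact congrArg Sum.inl (Subtype.ext h)
  · exfalso
    have h' : i.1 = j.1 := h
    have h1 := (mem_sdiff.1 i.2).2
    rw [h'] at h1
    exact h1 j.2
  · exfalso
    have h' : i.1 = j.1 := h
    have h1 := (mem_sdiff.1 j.2).2
    rw [← h'] at h1
    exact h1 i.2
  · exact congrArg Sum.inr (Subtype.ext h)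

/-- the prime values in the twist -/
def q1 : Finset {i // i ∈ P} := univ.filter (fun p => p.1 ∈ Q)

lemma dd_gm (L : ι → ℤ) : dd (q1 P Q) (fun i => L (gm P Q i)) = ∏ i ∈ Q, L i := by
  unfold dd
  rw [prod_disjSum]
  have e1 : ∏ i : {i // i ∈ Q \ P}, L (gm P Q (Sum.inl i)) = ∏ i ∈ Q \ P, L i :=
    prod_coe_sort (Q \ P) L
  have e2 : ∏ i ∈ q1 P Q, L (gm P Q (Sum.inr i)) = ∏ i ∈ P, if i ∈ Q then L i else 1 := by
    unfold q1
    rw [prod_filter]
    exact prod_coe_sort P (fun i => if i ∈ Q then L i else 1)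
  rw [e1, e2, ← prod_filter]
  have e3 : P.filter (fun i => i ∈ Q) = Q.filter (fun i => i ∈ P) := by
    ext i
    rw [mem_filter, mem_filter]
    exact and_comm
  have e4 : Q \ P = Q.filter (fun i => ¬ i ∈ P) := by
    ext i
    rw [mem_sdiff, mem_filter]
  rw [e3, e4, mul_comm]
  exact prod_filter_mul_prod_filter_not _ _ _

end

variable {ι : Type} [Fintype ι] [DecidableEq ι]

open Classical in
/-- one variable -/
theorem una (r : ℕ) (hr : 1 ≤ r) (a b : ℤ) (ha : a ≠ 0) (hb : b ≠ 0) (hab : a ≠ b)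
    (α β : ι → ℤ) (hα : ∀ i, α i ≠ 0) (hR : ∀ i j, i ≠ j → α i * β j ≠ α j * β i)
    (P Q : Finset ι) :
    ∃ C : ℝ, 0 ≤ C ∧ ∀ X : ℕ, 1 ≤ X → ∑ t ∈ (Icc (-(X : ℤ)) X).filter (fun t : ℤ =>
      ∀ i ∈ P, (α i * t + β i).natAbs.Prime),
      ((2 : ℝ) ^ Module.finrank ℤ (EAB (a * ∏ i ∈ Q, (α i * t + β i))
        (b * ∏ i ∈ Q, (α i * t + β i))).toAffine.Point) ^ r ≤
      C * (X / (1 + Real.log X) ^ P.card) := by
  obtain ⟨C, hC0, hC⟩ := signed r hr a b ha hb hab (fun i => α (gm P Q i))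
    (fun i => β (gm P Q i)) (fun i => hα _) (fun i j hij => by
      unfold Res
      exact sub_ne_zero.2 (hR _ _ (fun h => hij (gm_inj P Q h)))) (q1 P Q) wvUna
  set Φ : ℤ → ℝ := fun t => ((2 : ℝ) ^ Module.finrank ℤ (EAB (a * ∏ i ∈ Q, (α i * t + β i))
        (b * ∏ i ∈ Q, (α i * t + β i))).toAffine.Point) ^ r with hΦ
  have hΦ0 : ∀ t, 0 ≤ Φ t := fun t => by positivity
  have hΦR : ∀ t : ℤ, Φ t = Rz r a b (q1 P Q) (fun i => α (gm P Q i))
      (fun i => β (gm P Q i)) (t, 1) := by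
    intro t
    have e : dd (q1 P Q) (fv (fun i => α (gm P Q i)) (fun i => β (gm P Q i)) t 1) =
        ∏ i ∈ Q, (α i * t + β i) := by
      rw [← dd_gm P Q (fun i => α i * t + β i)]
      congr 1
      funext i
      unfold fv
      rw [mul_one]
    unfold Rz
    rw [e]
  obtain ⟨c, hc0, hc⟩ := log_rpow P.card
  refine ⟨C + Φ 0 * c, by positivity, fun X hX => ?_⟩
  have hXr : (1 : ℝ) ≤ X := by exact_mod_cast hX
  have hlX : 0 ≤ Real.log X := Real.log_nonneg hXr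
  have h1 := hC X hX
  rw [mul_one, Fintype.card_coe] at h1
  set S : ℝ := X / (1 + Real.log X) ^ P.card with hS
  have hSc : 1 ≤ c * S := by
    have h1 := hc X hX
    have h2 : (X : ℝ) ^ (1 / 4 : ℝ) ≤ X := by
      calc (X : ℝ) ^ (1 / 4 : ℝ) ≤ (X : ℝ) ^ (1 : ℝ) :=
            Real.rpow_le_rpow_of_exponent_le hXr (by norm_num)
        _ = X := Real.rpow_one _
    rw [hS, ← mul_div_assoc, one_le_div (by positivity)]
    exact h1.trans (mul_le_mul_of_nonneg_left h2 hc0.le)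
  set T := (Icc (-(X : ℤ)) X).filter (fun t : ℤ =>
      ∀ i ∈ P, (α i * t + β i).natAbs.Prime) with hT
  have h2 : ∑ t ∈ T.filter (fun t => t ≠ 0), Φ t ≤ C * S := by
    refine le_trans ?_ h1
    have e1 : ∑ t ∈ T.filter (fun t => t ≠ 0), Φ t =
        ∑ t ∈ (T.filter (fun t => t ≠ 0)).image (fun t : ℤ => (t, (1 : ℤ))),
          Rz r a b (q1 P Q) (fun i => α (gm P Q i)) (fun i => β (gm P Q i)) t := by
      rw [sum_image (fun t _ t' _ h => (Prod.mk.injEq _ _ _ _ ▸ h).1)]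
      exact sum_congr rfl fun t _ => hΦR t
    rw [e1]
    refine sum_le_sum_of_subset_of_nonneg ?_ (fun t _ _ => Rz_nonneg _ _ _ _ _ _ _)
    intro t ht
    rw [mem_image] at ht
    obtain ⟨t, ht, rfl⟩ := ht
    rw [mem_filter, hT, mem_filter, mem_Icc] at ht
    rw [mem_filter]
    unfold SB
    rw [mem_filter, mem_product, mem_Icc, mem_Icc]
    refine ⟨⟨⟨ht.1.1, by constructor <;> simp only <;> omega⟩, ht.2, ?_, isCoprime_one_right⟩, ?_⟩
    · simp [hX]
    · intro p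
      have h3 := ht.1.2 p.1 p.2
      have e2 : fv (fun i => α (gm P Q i)) (fun i => β (gm P Q i)) t 1 (Sum.inr p) =
          α p.1 * t + β p.1 := by
        show α p.1 * t + β p.1 * 1 = _
        rw [mul_one]
      simp only
      rw [e2]
      exact h3
  have h3 : ∑ t ∈ T.filter (fun t => ¬ t ≠ 0), Φ t ≤ Φ 0 := by
    refine (sum_le_sum_of_subset_of_nonneg (t := {0}) ?_ (fun t _ _ => hΦ0 t)).trans
      (le_of_eq (sum_singleton _ _))
    intro t ht
    rw [mem_filter, not_not] at ht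
    exact mem_singleton.2 ht.2
  calc ∑ t ∈ T, Φ t = ∑ t ∈ T.filter (fun t => t ≠ 0), Φ t +
        ∑ t ∈ T.filter (fun t => ¬ t ≠ 0), Φ t := (sum_filter_add_sum_filter_not _ _ _).symm
    _ ≤ C * S + Φ 0 * (c * S) :=
        add_le_add h2 (h3.trans (le_mul_of_one_le_right (hΦ0 0) hSc))
    _ = _ := by ring

open Classical in
/-- two variables -/
theorem bin (r : ℕ) (hr : 1 ≤ r) (a b : ℤ) (ha : a ≠ 0) (hb : b ≠ 0) (hab : a ≠ b)
    (α β : ι → ℤ) (hne : ∀ i, α i ≠ 0 ∨ β i ≠ 0)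
    (hR : ∀ i j, i ≠ j → α i * β j ≠ α j * β i) (P Q : Finset ι) :
    ∃ C : ℝ, 0 ≤ C ∧ ∀ X : ℕ, 1 ≤ X →
      ∑ t ∈ (Icc (-(X : ℤ)) X ×ˢ Icc (-(X : ℤ)) X).filter (fun t : ℤ × ℤ =>
        IsCoprime t.1 t.2 ∧ ∀ i ∈ P, (α i * t.1 + β i * t.2).natAbs.Prime),
      ((2 : ℝ) ^ Module.finrank ℤ (EAB (a * ∏ i ∈ Q, (α i * t.1 + β i * t.2))
        (b * ∏ i ∈ Q, (α i * t.1 + β i * t.2))).toAffine.Point) ^ r ≤
      C * ((X : ℝ) ^ 2 / (1 + Real.log X) ^ P.card) := by
  -- the shift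
  obtain ⟨q, hq⟩ : ∃ q : ℕ, ∀ i, α i + q * β i ≠ 0 := by
    refine ⟨1 + ∑ j, (α j).natAbs, fun j => ?_⟩
    have h1 := single_le_sum (f := fun j => (α j).natAbs) (fun _ _ => Nat.zero_le _)
      (mem_univ j)
    intro h2
    by_cases hβ : β j = 0
    · rw [hβ, mul_zero, add_zero] at h2
      rcases hne j with h | h
      · exact h h2
      · exact h hβ
    · have h3 : (α j).natAbs = (1 + ∑ j, (α j).natAbs) * (β j).natAbs := by
        have h4 : α j = -(((1 + ∑ j, (α j).natAbs : ℕ) : ℤ) * β j) := by linarith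
        have h5 := congrArg Int.natAbs h4
        rw [Int.natAbs_neg, Int.natAbs_mul, Int.natAbs_natCast] at h5
        exact h5
      have h4 : 1 ≤ (β j).natAbs := Int.natAbs_pos.2 hβ
      have h5 : (1 + ∑ j, (α j).natAbs) * 1 ≤ (1 + ∑ j, (α j).natAbs) * (β j).natAbs :=
        Nat.mul_le_mul_left _ h4
      omega
  obtain ⟨C, hC0, hC⟩ := signed r hr a b ha hb hab (fun i => α (gm P Q i) + q * β (gm P Q i))
    (fun i => β (gm P Q i)) (fun i => hq _) (fun i j hij => by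
      unfold Res
      have h1 := hR _ _ (fun h => hij (gm_inj P Q h))
      intro h2
      apply h1
      linear_combination h2) (q1 P Q) wvBin
  set Φ : ℤ × ℤ → ℝ := fun t =>
      ((2 : ℝ) ^ Module.finrank ℤ (EAB (a * ∏ i ∈ Q, (α i * t.1 + β i * t.2))
        (b * ∏ i ∈ Q, (α i * t.1 + β i * t.2))).toAffine.Point) ^ r with hΦ
  have hΦ0 : ∀ t, 0 ≤ Φ t := fun t => by positivity
  have hΦR : ∀ t : ℤ × ℤ, Φ t = Rz r a b (q1 P Q) (fun i => α (gm P Q i) + q * β (gm P Q i))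
      (fun i => β (gm P Q i)) (t.1, t.2 - q * t.1) := by
    intro t
    have e : dd (q1 P Q) (fv (fun i => α (gm P Q i) + q * β (gm P Q i))
        (fun i => β (gm P Q i)) t.1 (t.2 - q * t.1)) =
        ∏ i ∈ Q, (α i * t.1 + β i * t.2) := by
      rw [← dd_gm P Q (fun i => α i * t.1 + β i * t.2)]
      congr 1
      funext i
      unfold fv
      ring
    unfold Rz
    rw [e]
  obtain ⟨c, hc0, hc⟩ := log_rpow P.card
  set Z : Finset (ℤ × ℤ) := Icc (-((q : ℤ) + 1)) (q + 1) ×ˢ Icc (-((q : ℤ) + 1)) (q + 1) with hZ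
  set D : ℝ := ∑ t ∈ Z, Φ t with hD
  have hD0 : 0 ≤ D := sum_nonneg fun t _ => hΦ0 t
  refine ⟨C * (1 + q) ^ 2 + D * c, by positivity, fun X hX => ?_⟩
  have hXr : (1 : ℝ) ≤ X := by exact_mod_cast hX
  have hlX : 0 ≤ Real.log X := Real.log_nonneg hXr
  set X' : ℕ := (1 + q) * X with hX'
  have hX'1 : 1 ≤ X' := Nat.mul_pos (by omega) hX
  have hXX' : X ≤ X' := Nat.le_mul_of_pos_left X (by omega)
  have h1 := hC X' hX'1
  rw [Fintype.card_coe] at h1
  set S : ℝ := (X : ℝ) ^ 2 / (1 + Real.log X) ^ P.card with hS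
  have hSS : (X' : ℝ) * X' / (1 + Real.log X') ^ P.card ≤ (1 + q) ^ 2 * S := by
    have e1 : (X' : ℝ) * X' = (1 + q) ^ 2 * (X : ℝ) ^ 2 := by
      rw [hX']
      push_cast
      ring
    rw [e1, hS, mul_div_assoc]
    refine mul_le_mul_of_nonneg_left ?_ (by positivity)
    have h2 : Real.log X ≤ Real.log X' := Real.log_le_log (by linarith) (by exact_mod_cast hXX')
    apply div_le_div_of_nonneg_left (by positivity) (by positivity)
    exact pow_le_pow_left₀ (by positivity) (by linarith) _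
  have hSc : 1 ≤ c * S := by
    have h1 := hc X hX
    have h2 : (X : ℝ) ^ (1 / 4 : ℝ) ≤ (X : ℝ) ^ 2 := by
      calc (X : ℝ) ^ (1 / 4 : ℝ) ≤ (X : ℝ) ^ (2 : ℝ) :=
            Real.rpow_le_rpow_of_exponent_le hXr (by norm_num)
        _ = (X : ℝ) ^ 2 := by norm_cast
    rw [hS, ← mul_div_assoc, one_le_div (by positivity)]
    exact h1.trans (mul_le_mul_of_nonneg_left h2 hc0.le)
  set T := (Icc (-(X : ℤ)) X ×ˢ Icc (-(X : ℤ)) X).filter (fun t : ℤ × ℤ =>
        IsCoprime t.1 t.2 ∧ ∀ i ∈ P, (α i * t.1 + β i * t.2).natAbs.Prime) with hT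
  have h2 : ∑ t ∈ T.filter (fun t : ℤ × ℤ => t.1 ≠ 0 ∧ t.2 - (q : ℤ) * t.1 ≠ 0), Φ t ≤
      C * ((1 + q) ^ 2 * S) := by
    refine le_trans ?_ (h1.trans (mul_le_mul_of_nonneg_left hSS hC0))
    have e1 : ∑ t ∈ T.filter (fun t : ℤ × ℤ => t.1 ≠ 0 ∧ t.2 - (q : ℤ) * t.1 ≠ 0), Φ t =
        ∑ t ∈ (T.filter (fun t : ℤ × ℤ => t.1 ≠ 0 ∧ t.2 - (q : ℤ) * t.1 ≠ 0)).image
          (fun t : ℤ × ℤ => (t.1, t.2 - q * t.1)),
          Rz r a b (q1 P Q) (fun i => α (gm P Q i) + q * β (gm P Q i))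
            (fun i => β (gm P Q i)) t := by
      rw [sum_image (fun t _ t' _ h => by
        simp only [Prod.mk.injEq] at h
        have h3 := h.1
        have h4 := h.2
        rw [h3] at h4
        exact Prod.ext h3 (by linarith))]
      exact sum_congr rfl fun t _ => hΦR t
    rw [e1]
    refine sum_le_sum_of_subset_of_nonneg ?_ (fun t _ _ => Rz_nonneg _ _ _ _ _ _ _)
    intro t ht
    rw [mem_image] at ht
    obtain ⟨t, ht, rfl⟩ := ht
    rw [mem_filter, hT, mem_filter, mem_product, mem_Icc, mem_Icc] at ht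
    obtain ⟨⟨⟨⟨b1, b2⟩, b3, b4⟩, hcp, hpr⟩, hn1, hn2⟩ := ht
    have hbd : (t.2 - q * t.1).natAbs ≤ X' := by
      have h5 := Int.natAbs_sub_le t.2 (q * t.1)
      rw [Int.natAbs_mul, Int.natAbs_natCast] at h5
      have h6 : t.1.natAbs ≤ X := by omega
      have h7 : t.2.natAbs ≤ X := by omega
      calc _ ≤ t.2.natAbs + q * t.1.natAbs := h5
        _ ≤ X + q * X := add_le_add h7 (Nat.mul_le_mul_left _ h6)
        _ = X' := by rw [hX']; ring
    rw [mem_filter]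
    unfold SB
    rw [mem_filter, mem_product, mem_Icc, mem_Icc]
    refine ⟨⟨⟨⟨?_, ?_⟩, ?_, ?_⟩, hn1, ?_, ?_⟩, ?_⟩
    · simp only; omega
    · simp only; omega
    · simp only; omega
    · simp only; omega
    · simp only [mem_Icc]
      exact ⟨Int.natAbs_pos.2 hn2, hbd⟩
    · simp only
      have h5 : t.2 - (q : ℤ) * t.1 = t.2 + t.1 * (-(q : ℤ)) := by ring
      rw [h5]
      exact hcp.add_mul_left_right _
    · intro p
      have h3 := hpr p.1 p.2
      have e2 : fv (fun i => α (gm P Q i) + q * β (gm P Q i)) (fun i => β (gm P Q i)) t.1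
          (t.2 - q * t.1) (Sum.inr p) = α p.1 * t.1 + β p.1 * t.2 := by
        show (α p.1 + q * β p.1) * t.1 + β p.1 * (t.2 - q * t.1) = _
        ring
      simp only
      rw [e2]
      exact h3
  have h3 : ∑ t ∈ T.filter (fun t : ℤ × ℤ => ¬ (t.1 ≠ 0 ∧ t.2 - (q : ℤ) * t.1 ≠ 0)), Φ t ≤ D := by
    refine sum_le_sum_of_subset_of_nonneg ?_ (fun t _ _ => hΦ0 t)
    intro t ht
    rw [mem_filter, hT, mem_filter] at ht
    obtain ⟨⟨_, hcp, _⟩, hn⟩ := ht
    rw [hZ, mem_product, mem_Icc, mem_Icc]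
    by_cases h0 : t.1 = 0
    · rw [h0] at hcp
      have h5 := isCoprime_zero_left.1 hcp
      rcases Int.isUnit_iff.1 h5 with h6 | h6 <;> omega
    · have h4 : t.2 = q * t.1 := by
        by_contra h5
        exact hn ⟨h0, fun h6 => h5 (by linarith)⟩
      have h5 : IsUnit t.1 := by
        apply hcp.isUnit_of_dvd' dvd_rfl
        rw [h4]
        exact dvd_mul_left _ _
      rcases Int.isUnit_iff.1 h5 with h6 | h6
      · rw [h6, mul_one] at h4
        omega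
      · rw [h6] at h4
        omega
  calc ∑ t ∈ T, Φ t = ∑ t ∈ T.filter (fun t : ℤ × ℤ => t.1 ≠ 0 ∧ t.2 - (q : ℤ) * t.1 ≠ 0), Φ t +
        ∑ t ∈ T.filter (fun t : ℤ × ℤ => ¬ (t.1 ≠ 0 ∧ t.2 - (q : ℤ) * t.1 ≠ 0)), Φ t :=
        (sum_filter_add_sum_filter_not _ _ _).symm
    _ ≤ C * ((1 + q) ^ 2 * S) + D * (c * S) :=
        add_le_add h2 (h3.trans (le_mul_of_one_le_right hD0 hSc))
    _ = _ := by ring

end Pool.Agent.V7H45.BF
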