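import Pool.Agent.V7H45.BF.Core

/-!
# The parameters of all signs, small prime values and zeros
-/

set_option autoImplicit false
set_option maxHeartbeats 1000000

namespace Pool.Agent.V7H45.BF

open Finset Pool.Agent.W262.RK Pool.Agent.W307.RT Pool.Agent.W45.RT Pool.Agent.W29.RT
  Pool.Agent.V7H45.TM

/-! ### logarithms -/

lemma log_rpow (m : ℕ) : ∃ c : ℝ, 0 < c ∧ ∀ X : ℕ, 1 ≤ X →
    (1 + Real.log X) ^ m ≤ c * (X : ℝ) ^ (1 / 4 : ℝ) := by
  set ε : ℝ := 1 / (4 * (m + 1)) with hε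
  have hε0 : 0 < ε := by positivity
  refine ⟨(1 + 1 / ε) ^ m, by positivity, fun X hX => ?_⟩
  have hXr : (1 : ℝ) ≤ X := by exact_mod_cast hX
  have h1 : Real.log X ≤ (X : ℝ) ^ ε / ε := Real.log_le_rpow_div (by linarith) hε0
  have h2 : 1 ≤ (X : ℝ) ^ ε := Real.one_le_rpow hXr hε0.le
  have h3 : 1 + Real.log X ≤ (X : ℝ) ^ ε * (1 + 1 / ε) := by
    have e : (X : ℝ) ^ ε * (1 + 1 / ε) = (X : ℝ) ^ ε + (X : ℝ) ^ ε / ε := by ring
    rw [e]
    linarith
  have h4 : 0 ≤ Real.log X := Real.log_nonneg hXr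
  calc (1 + Real.log X) ^ m ≤ ((X : ℝ) ^ ε * (1 + 1 / ε)) ^ m :=
        pow_le_pow_left₀ (by linarith) h3 m
    _ = (1 + 1 / ε) ^ m * (X : ℝ) ^ (ε * m) := by
        rw [mul_pow, ← Real.rpow_natCast ((X : ℝ) ^ ε), ← Real.rpow_mul (by linarith), mul_comm]
    _ ≤ (1 + 1 / ε) ^ m * (X : ℝ) ^ (1 / 4 : ℝ) := by
        refine mul_le_mul_of_nonneg_left ?_ (by positivity)
        apply Real.rpow_le_rpow_of_exponent_le hXr
        rw [hε, one_div_mul_eq_div, div_le_div_iff₀ (by positivity) (by norm_num)]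
        nlinarith

/-! ### signs -/

/-- change of the sign -/
def sg (e : Bool) (n : ℤ) : ℤ := if e then -n else n

lemma sg_ne {e : Bool} {n : ℤ} (h : n ≠ 0) : sg e n ≠ 0 := by
  unfold sg
  split_ifs
  · exact neg_ne_zero.2 h
  · exact h

lemma sg_inj (e : Bool) : Function.Injective (sg e) := by
  intro a b h
  unfold sg at h
  split_ifs at h
  · exact neg_injective h
  · exact h

lemma sg_abs (n : ℤ) : sg (decide (n < 0)) (n.natAbs : ℤ) = n := by
  unfold sg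
  by_cases h : n < 0
  · rw [if_pos (by simpa using h)]; omega
  · rw [if_neg (by simpa using h)]; omega

section

variable {I : Type}

lemma fv_sg (α β : I → ℤ) (e1 e2 : Bool) (t w : ℤ) :
    fv (fun i => sg e1 (α i)) (fun i => sg e2 (β i)) t w = fv α β (sg e1 t) (sg e2 w) := by
  funext i
  unfold fv sg
  split_ifs <;> ring

lemma Res_sg (α β : I → ℤ) (e : Bool × Bool) (j l : I) :
    Res (fun i => sg e.1 (α i)) (fun i => sg e.2 (β i)) j l = Res α β j l ∨
    Res (fun i => sg e.1 (α i)) (fun i => sg e.2 (β i)) j l = -Res α β j l := by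
  unfold Res sg
  rcases e with ⟨e1, e2⟩
  cases e1 <;> cases e2
  · left; simp
  · right; simp; ring
  · right; simp; ring
  · left; simp

end

open Classical in
/-- the coprime pairs with nonzero first entry -/
noncomputable def SB (W : ℕ → Finset ℕ) (X : ℕ) : Finset (ℤ × ℤ) :=
  (Icc (-(X : ℤ)) X ×ˢ Icc (-(X : ℤ)) X).filter (fun t : ℤ × ℤ =>
    t.1 ≠ 0 ∧ t.2.natAbs ∈ W X ∧ IsCoprime t.1 t.2)

variable {J P : Type} [Fintype J] [DecidableEq J] [Fintype P] [DecidableEq P]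

/-- the power of `2 ^ rank` of the twist -/
noncomputable def Rz (r : ℕ) (a b : ℤ) (Q1 : Finset P) (α β : J ⊕ P → ℤ) (t : ℤ × ℤ) : ℝ :=
  ((2 : ℝ) ^ Module.finrank ℤ (EAB (a * dd Q1 (fv α β t.1 t.2))
    (b * dd Q1 (fv α β t.1 t.2))).toAffine.Point) ^ r

lemma Rz_nonneg (r : ℕ) (a b : ℤ) (Q1 : Finset P) (α β : J ⊕ P → ℤ) (t : ℤ × ℤ) :
    0 ≤ Rz r a b Q1 α β t := by
  unfold Rz
  positivity

/-- the hypotheses on the second variable -/
structure WV (W : ℕ → Finset ℕ) (V : ℕ → ℝ) : Prop where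
  hW : ∀ X, ∀ w ∈ W X, w ≠ 0 ∧ w ≤ X
  hWW : ∀ X Y, X ≤ Y → W X ⊆ W Y
  hV : ∀ X, 1 ≤ X → 1 ≤ V X
  hsum : ∀ c z : ℕ, 2 * c + 2 ≤ z → ∃ CA : ℝ, 0 ≤ CA ∧ ∀ X, 1 ≤ X →
    ∑ w ∈ W X, hw c z w ≤ CA * V X

/-- a coprime pair with a zero of a form is small -/
lemma zero_small {α β u v : ℤ} (hα : α ≠ 0) (hu : u ≠ 0) (hc : IsCoprime u v)
    (h : α * u + β * v = 0) : u.natAbs ≤ β.natAbs ∧ v.natAbs ≤ α.natAbs := by
  have hβ : β ≠ 0 := by
    rintro rfl
    rw [zero_mul, add_zero] at h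
    exact (mul_ne_zero hα hu) h
  have h1 : u ∣ β := by
    have h2 : u ∣ β * v := ⟨-α, by linarith⟩
    exact hc.dvd_of_dvd_mul_right h2
  have h3 : v ∣ α := by
    have h2 : v ∣ α * u := ⟨-β, by linarith⟩
    exact hc.symm.dvd_of_dvd_mul_right h2
  exact ⟨Nat.le_of_dvd (Int.natAbs_pos.2 hβ) (Int.natAbs_dvd_natAbs.2 h1),
    Nat.le_of_dvd (Int.natAbs_pos.2 hα) (Int.natAbs_dvd_natAbs.2 h3)⟩

open Classical in
/-- all signs, large prime values -/
theorem big (r : ℕ) (hr : 1 ≤ r) (a b : ℤ) (ha : a ≠ 0) (hb : b ≠ 0) (hab : a ≠ b)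
    (α β : J ⊕ P → ℤ) (hα : ∀ j, α j ≠ 0) (hR : ∀ j l, j ≠ l → Res α β j l ≠ 0)
    (Q1 : Finset P) {W : ℕ → Finset ℕ} {V : ℕ → ℝ} (hWV : WV W V) :
    ∃ C : ℝ, 0 ≤ C ∧ ∀ X : ℕ, 1 ≤ X → ∑ t ∈ (SB W X).filter (fun t : ℤ × ℤ =>
      ∀ p : P, (fv α β t.1 t.2 (Sum.inr p)).natAbs.Prime ∧
        X < (fv α β t.1 t.2 (Sum.inr p)).natAbs ^ 2), Rz r a b Q1 α β t ≤
      C * (X * V X / (1 + Real.log X) ^ Fintype.card P) := by
  have hcore := fun e : Bool × Bool => core r hr a b ha hb hab (fun i => sg e.1 (α i))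
    (fun i => sg e.2 (β i)) (fun j => sg_ne (hα j)) (fun j l hjl => by
      rcases Res_sg α β e j l with h | h
      · rw [h]; exact hR j l hjl
      · rw [h]; exact neg_ne_zero.2 (hR j l hjl)) Q1 W V hWV.hW hWV.hWW
    (fun X hX => lt_of_lt_of_le one_pos (hWV.hV X hX)) hWV.hsum
  choose C hC using hcore
  set M : ℕ := ∑ i, ((α i).natAbs + (β i).natAbs) with hM
  have hMi : ∀ i, (α i).natAbs + (β i).natAbs ≤ M := fun i =>
    single_le_sum (f := fun j => (α j).natAbs + (β j).natAbs) (fun _ _ => Nat.zero_le _)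
      (mem_univ i)
  set Z : Finset (ℤ × ℤ) := Icc (-(M : ℤ)) M ×ˢ Icc (-(M : ℤ)) M with hZ
  set D : ℝ := ∑ t ∈ Z, Rz r a b Q1 α β t with hD
  have hD0 : 0 ≤ D := sum_nonneg fun t _ => Rz_nonneg _ _ _ _ _ _ _
  obtain ⟨c, hc0, hc⟩ := log_rpow (Fintype.card P)
  refine ⟨D * c + ∑ e, max (C e) 0, by positivity, fun X hX => ?_⟩
  have hXr : (1 : ℝ) ≤ X := by exact_mod_cast hX
  have hlX : 0 ≤ Real.log X := Real.log_nonneg hXr
  have hVX := hWV.hV X hX
  set S : ℝ := X * V X / (1 + Real.log X) ^ Fintype.card P with hS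
  have hS0 : 0 ≤ S := by positivity
  have hSc : 1 ≤ c * S := by
    have h1 := hc X hX
    have h2 : (X : ℝ) ^ (1 / 4 : ℝ) ≤ X := by
      calc (X : ℝ) ^ (1 / 4 : ℝ) ≤ (X : ℝ) ^ (1 : ℝ) :=
            Real.rpow_le_rpow_of_exponent_le hXr (by norm_num)
        _ = X := Real.rpow_one _
    rw [hS, ← mul_div_assoc, one_le_div (by positivity)]
    calc (1 + Real.log X) ^ Fintype.card P ≤ c * (X : ℝ) ^ (1 / 4 : ℝ) := h1
      _ ≤ c * X := mul_le_mul_of_nonneg_left h2 hc0.le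
      _ ≤ c * (X * V X) := by
          refine mul_le_mul_of_nonneg_left ?_ hc0.le
          exact le_mul_of_one_le_right (by linarith) hVX
  set im : Bool × Bool → Finset (ℤ × ℤ) := fun e =>
    (TT W (fun i => sg e.1 (α i)) (fun i => sg e.2 (β i)) X).image
      (fun t : ℕ × ℕ => (sg e.1 (t.1 : ℤ), sg e.2 (t.2 : ℤ))) with him
  set SS : Option (Bool × Bool) → Finset (ℤ × ℤ) := fun o => o.elim Z im with hSS
  have hcov : ∀ t ∈ (SB W X).filter (fun t : ℤ × ℤ =>
      ∀ p : P, (fv α β t.1 t.2 (Sum.inr p)).natAbs.Prime ∧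
        X < (fv α β t.1 t.2 (Sum.inr p)).natAbs ^ 2),
      ∃ q ∈ (univ : Finset (Option (Bool × Bool))), t ∈ SS q := by
    intro t ht
    rw [mem_filter] at ht
    unfold SB at ht
    rw [mem_filter, mem_product, mem_Icc, mem_Icc] at ht
    obtain ⟨⟨⟨⟨h1, h2⟩, h3, h4⟩, h5, h6, h7⟩, h8⟩ := ht
    by_cases h0 : ∀ i, fv α β t.1 t.2 i ≠ 0
    · refine ⟨some (decide (t.1 < 0), decide (t.2 < 0)), mem_univ _, ?_⟩
      show t ∈ im _
      rw [him]
      simp only
      rw [mem_image]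
      refine ⟨(t.1.natAbs, t.2.natAbs), ?_, ?_⟩
      · unfold TT
        rw [mem_filter, mem_product, mem_Icc]
        have e2 : fv (fun i => sg (decide (t.1 < 0)) (α i)) (fun i => sg (decide (t.2 < 0)) (β i))
            (t.1.natAbs : ℤ) (t.2.natAbs : ℤ) = fv α β t.1 t.2 := by
          rw [fv_sg, sg_abs, sg_abs]
        show _ ∧ _ ∧ (∀ i, fv (fun i => sg (decide (t.1 < 0)) (α i))
          (fun i => sg (decide (t.2 < 0)) (β i)) (t.1.natAbs : ℤ) (t.2.natAbs : ℤ) i ≠ 0) ∧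
          ∀ p : P, (fv (fun i => sg (decide (t.1 < 0)) (α i))
          (fun i => sg (decide (t.2 < 0)) (β i)) (t.1.natAbs : ℤ) (t.2.natAbs : ℤ)
            (Sum.inr p)).natAbs.Prime ∧ X < (fv (fun i => sg (decide (t.1 < 0)) (α i))
          (fun i => sg (decide (t.2 < 0)) (β i)) (t.1.natAbs : ℤ) (t.2.natAbs : ℤ)
            (Sum.inr p)).natAbs ^ 2
        rw [e2]
        refine ⟨⟨⟨Int.natAbs_pos.2 h5, by omega⟩, h6⟩, ?_, h0, h8⟩
        exact (Int.isCoprime_iff_gcd_eq_one.1 h7)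
      · simp only [sg_abs]
    · push Not at h0
      obtain ⟨i, hi⟩ := h0
      refine ⟨none, mem_univ _, ?_⟩
      show t ∈ Z
      have h9 := zero_small (hα i) h5 h7 hi
      have h10 := hMi i
      rw [hZ, mem_product, mem_Icc, mem_Icc]
      omega
  have hsum := splitSum (R := Rz r a b Q1 α β) (Rz_nonneg r a b Q1 α β) hcov
  rw [Fintype.sum_option] at hsum
  have him2 : ∀ e, ∑ t ∈ im e, Rz r a b Q1 α β t ≤ max (C e) 0 * S := by
    intro e
    rw [him]
    simp only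
    rw [sum_image (fun t _ t' _ h => by
      simp only [Prod.mk.injEq] at h
      exact Prod.ext (by exact_mod_cast sg_inj _ h.1) (by exact_mod_cast sg_inj _ h.2))]
    have h1 := hC e X hX
    have e2 : ∀ t w : ℤ, fv (fun i => sg e.1 (α i)) (fun i => sg e.2 (β i)) t w =
        fv α β (sg e.1 t) (sg e.2 w) := fv_sg α β e.1 e.2
    refine le_trans (le_of_eq ?_) (h1.trans (mul_le_mul_of_nonneg_right (le_max_left _ _) hS0))
    refine sum_congr rfl fun t _ => ?_
    rw [e2]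
    rfl
  refine hsum.trans ?_
  have h1 : ∑ t ∈ SS none, Rz r a b Q1 α β t ≤ D * (c * S) := by
    show D ≤ D * (c * S)
    exact le_mul_of_one_le_right hD0 hSc
  have h2 : ∑ e, ∑ t ∈ SS (some e), Rz r a b Q1 α β t ≤ ∑ e, max (C e) 0 * S :=
    sum_le_sum fun e _ => him2 e
  rw [← sum_mul] at h2
  calc _ ≤ D * (c * S) + (∑ e, max (C e) 0) * S := add_le_add h1 h2
    _ = _ := by ring

open Classical in
/-- the moments without conditions on prime values -/
theorem sec (r : ℕ) (hr : 1 ≤ r) (a b : ℤ) (ha : a ≠ 0) (hb : b ≠ 0) (hab : a ≠ b)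
    (α β : J ⊕ P → ℤ) (hα : ∀ j, α j ≠ 0) (hR : ∀ j l, j ≠ l → Res α β j l ≠ 0)
    (Q1 : Finset P) {W : ℕ → Finset ℕ} {V : ℕ → ℝ} (hWV : WV W V) :
    ∃ C : ℝ, 0 ≤ C ∧ ∀ X : ℕ, 1 ≤ X → ∑ t ∈ SB W X, Rz r a b Q1 α β t ≤ C * (X * V X) := by
  set Q : Finset (J ⊕ P) := (univ : Finset J).disjSum Q1 with hQ
  set g : {i // i ∈ Q} ⊕ Empty → J ⊕ P := Sum.elim Subtype.val Empty.elim with hg
  have hginj : Function.Injective g := by
    rintro (i | i) (j | j) h
    · exact congrArg Sum.inl (Subtype.ext h)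
    · exact j.elim
    · exact i.elim
    · exact i.elim
  obtain ⟨C, hC0, hC⟩ := big (J := {i // i ∈ Q}) (P := Empty) r hr a b ha hb hab
    (fun i => α (g i)) (fun i => β (g i)) (fun i => hα _)
    (fun i j hij => hR _ _ (fun h => hij (hginj h))) ∅ hWV
  refine ⟨C, hC0, fun X hX => ?_⟩
  have h1 := hC X hX
  rw [Fintype.card_empty, pow_zero, div_one] at h1
  refine le_trans (le_of_eq ?_) h1
  rw [filter_true_of_mem (fun t _ p => p.elim)]
  refine sum_congr rfl fun t _ => ?_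
  have e : dd Q1 (fv α β t.1 t.2) =
      dd ∅ (fv (fun i => α (g i)) (fun i => β (g i)) t.1 t.2) := by
    unfold dd
    rw [← hQ, disjSum_empty, prod_map]
    exact (prod_coe_sort Q (fun i => fv α β t.1 t.2 i)).symm
  unfold Rz
  rw [e]

/-- the integers with small values of a linear form -/
lemma small_card {α : ℤ} (hα : α ≠ 0) (c : ℤ) (X : ℕ) (T : Finset ℤ) :
    (T.filter (fun u : ℤ => (α * u + c).natAbs ^ 2 ≤ X)).card ≤ 2 * Nat.sqrt X + 1 := by
  have h1 : (T.filter (fun u : ℤ => (α * u + c).natAbs ^ 2 ≤ X)).card ≤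
      (Icc (-(Nat.sqrt X : ℤ)) (Nat.sqrt X)).card := by
    apply card_le_card_of_injOn (fun u => α * u + c)
    · intro u hu
      have h2 := (mem_filter.1 (mem_coe.1 hu)).2
      have h3 : (α * u + c).natAbs ≤ Nat.sqrt X := by
        rw [Nat.le_sqrt']
        exact h2
      apply mem_coe.2
      rw [mem_Icc]
      simp only
      omega
    · intro u _ u' _ h
      simp only at h
      exact mul_left_cancel₀ hα (by linarith)
  refine h1.trans (le_of_eq ?_)
  rw [Int.card_Icc]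
  omega

open Classical in
/-- **All signs.** -/
theorem signed (r : ℕ) (hr : 1 ≤ r) (a b : ℤ) (ha : a ≠ 0) (hb : b ≠ 0) (hab : a ≠ b)
    (α β : J ⊕ P → ℤ) (hα : ∀ j, α j ≠ 0) (hR : ∀ j l, j ≠ l → Res α β j l ≠ 0)
    (Q1 : Finset P) {W : ℕ → Finset ℕ} {V : ℕ → ℝ} (hWV : WV W V) :
    ∃ C : ℝ, 0 ≤ C ∧ ∀ X : ℕ, 1 ≤ X → ∑ t ∈ (SB W X).filter (fun t : ℤ × ℤ =>
      ∀ p : P, (fv α β t.1 t.2 (Sum.inr p)).natAbs.Prime), Rz r a b Q1 α β t ≤
      C * (X * V X / (1 + Real.log X) ^ Fintype.card P) := by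
  obtain ⟨C1, hC10, hC1⟩ := big r hr a b ha hb hab α β hα hR Q1 hWV
  obtain ⟨C2, hC20, hC2⟩ := sec (2 * r) (by omega) a b ha hb hab α β hα hR Q1 hWV
  obtain ⟨CA, hCA0, hCA⟩ := hWV.hsum 0 2 (by omega)
  obtain ⟨c, hc0, hc⟩ := log_rpow (Fintype.card P)
  set K : ℝ := Fintype.card P * (2 * CA * 3) with hK
  refine ⟨C1 + (C2 + K) * c, by positivity, fun X hX => ?_⟩
  have hXr : (1 : ℝ) ≤ X := by exact_mod_cast hX
  have hlX : 0 ≤ Real.log X := Real.log_nonneg hXr
  have hVX := hWV.hV X hX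
  set m := Fintype.card P with hm
  set S : ℝ := X * V X / (1 + Real.log X) ^ m with hS
  set q : ℝ := (X : ℝ) ^ (1 / 4 : ℝ) with hq
  have hq1 : 1 ≤ q := Real.one_le_rpow hXr (by norm_num)
  have hq4 : q ^ 4 = X := by
    rw [hq, ← Real.rpow_natCast, ← Real.rpow_mul (by linarith)]
    norm_num
  -- the number of the elements of `W X`
  have hWc : ((W X).card : ℝ) ≤ CA * V X := by
    refine le_trans (le_of_eq ?_) (hCA X hX)
    rw [card_eq_sum_ones, Nat.cast_sum]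
    refine sum_congr rfl fun w _ => ?_
    unfold hw
    rw [Nat.cast_one]
    symm
    apply prod_eq_one
    intro p hp
    have hp0 : (p : ℝ) ≠ 0 := Nat.cast_ne_zero.2 (Nat.prime_of_mem_primeFactors
      (mem_filter.1 hp).1).ne_zero
    rw [Nat.cast_zero, sub_zero, div_self hp0]
  -- the bad set
  set Bd : Finset (ℤ × ℤ) := (SB W X).filter (fun t : ℤ × ℤ =>
    ∃ p : P, (fv α β t.1 t.2 (Sum.inr p)).natAbs ^ 2 ≤ X) with hBd
  have hBdc : (Bd.card : ℝ) ≤ K * V X * q ^ 2 := by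
    have h1 : Bd.card ≤ ∑ p : P, ∑ v ∈ (Icc (-(X : ℤ)) X).filter (fun v => v.natAbs ∈ W X),
        (2 * Nat.sqrt X + 1) := by
      have h2 : Bd ⊆ (univ : Finset P).biUnion (fun p =>
          ((Icc (-(X : ℤ)) X).filter (fun v => v.natAbs ∈ W X)).biUnion (fun v =>
            ((Icc (-(X : ℤ)) X).filter (fun u : ℤ =>
              (α (Sum.inr p) * u + β (Sum.inr p) * v).natAbs ^ 2 ≤ X)).image
                (fun u => (u, v)))) := by
        intro t ht
        rw [hBd, mem_filter] at ht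
        unfold SB at ht
        rw [mem_filter, mem_product] at ht
        obtain ⟨⟨⟨h1, h2⟩, h5, h6, h7⟩, p, hp⟩ := ht
        rw [mem_biUnion]
        refine ⟨p, mem_univ _, ?_⟩
        rw [mem_biUnion]
        refine ⟨t.2, mem_filter.2 ⟨h2, h6⟩, ?_⟩
        rw [mem_image]
        exact ⟨t.1, mem_filter.2 ⟨h1, hp⟩, rfl⟩
      refine (card_le_card h2).trans (card_biUnion_le.trans (sum_le_sum fun p _ => ?_))
      refine card_biUnion_le.trans (sum_le_sum fun v _ => ?_)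
      exact card_image_le.trans (small_card (hα _) _ X _)
    have h3 : ((Icc (-(X : ℤ)) X).filter (fun v : ℤ => v.natAbs ∈ W X)).card ≤
        2 * (W X).card := by
      have h4 : (Icc (-(X : ℤ)) X).filter (fun v : ℤ => v.natAbs ∈ W X) ⊆
          (W X).image (fun w : ℕ => (w : ℤ)) ∪ (W X).image (fun w : ℕ => -(w : ℤ)) := by
        intro v hv
        rw [mem_filter] at hv
        rw [mem_union, mem_image, mem_image]
        rcases le_total 0 v with h | h
        · left; exact ⟨v.natAbs, hv.2, by omega⟩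
        · right; exact ⟨v.natAbs, hv.2, by omega⟩
      refine (card_le_card h4).trans ((card_union_le _ _).trans ?_)
      have h5 := card_image_le (s := W X) (f := fun w : ℕ => (w : ℤ))
      have h6 := card_image_le (s := W X) (f := fun w : ℕ => -(w : ℤ))
      omega
    rw [sum_const, sum_const, card_univ, smul_eq_mul, smul_eq_mul] at h1
    have h4 : (Nat.sqrt X : ℝ) ≤ q ^ 2 := by
      have h5 : ((Nat.sqrt X : ℕ) : ℝ) ^ 2 ≤ (q ^ 2) ^ 2 := by
        have h6 : Nat.sqrt X ^ 2 ≤ X := Nat.sqrt_le' X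
        calc ((Nat.sqrt X : ℕ) : ℝ) ^ 2 ≤ X := by exact_mod_cast h6
          _ = (q ^ 2) ^ 2 := by rw [← hq4]; ring
      exact le_of_sq_le_sq h5 (by positivity)
    have h5 : (2 * Nat.sqrt X + 1 : ℝ) ≤ 3 * q ^ 2 := by
      have : 1 ≤ q ^ 2 := one_le_pow₀ hq1
      linarith
    calc (Bd.card : ℝ) ≤ ((Fintype.card P *
          (((Icc (-(X : ℤ)) X).filter (fun v : ℤ => v.natAbs ∈ W X)).card *
            (2 * Nat.sqrt X + 1)) : ℕ) : ℝ) := by exact_mod_cast h1
      _ ≤ m * ((2 * (CA * V X)) * (3 * q ^ 2)) := by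
          push_cast
          refine mul_le_mul_of_nonneg_left ?_ (Nat.cast_nonneg _)
          refine mul_le_mul ?_ h5 (by positivity) (by positivity)
          have h6 : (((Icc (-(X : ℤ)) X).filter (fun v : ℤ => v.natAbs ∈ W X)).card : ℝ) ≤
              2 * ((W X).card : ℝ) := by exact_mod_cast h3
          linarith
      _ = K * V X * q ^ 2 := by rw [hK]; ring
  -- the split
  have hsub : (SB W X).filter (fun t : ℤ × ℤ =>
      ∀ p : P, (fv α β t.1 t.2 (Sum.inr p)).natAbs.Prime) ⊆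
      (SB W X).filter (fun t : ℤ × ℤ =>
      ∀ p : P, (fv α β t.1 t.2 (Sum.inr p)).natAbs.Prime ∧
        X < (fv α β t.1 t.2 (Sum.inr p)).natAbs ^ 2) ∪ Bd := by
    intro t ht
    rw [mem_filter] at ht
    rw [mem_union, mem_filter]
    by_cases h : ∃ p : P, (fv α β t.1 t.2 (Sum.inr p)).natAbs ^ 2 ≤ X
    · right
      exact mem_filter.2 ⟨ht.1, h⟩
    · left
      push Not at h
      exact ⟨ht.1, fun p => ⟨ht.2 p, h p⟩⟩
  have hRn := Rz_nonneg r a b Q1 α β
  have h1 : ∑ t ∈ (SB W X).filter (fun t : ℤ × ℤ =>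
      ∀ p : P, (fv α β t.1 t.2 (Sum.inr p)).natAbs.Prime), Rz r a b Q1 α β t ≤
      C1 * S + ∑ t ∈ Bd, Rz r a b Q1 α β t := by
    refine (sum_le_sum_of_subset_of_nonneg hsub (fun t _ _ => hRn t)).trans ?_
    refine le_trans ?_ (add_le_add (hC1 X hX) le_rfl)
    rw [← sum_union_inter]
    exact le_add_of_nonneg_right (sum_nonneg fun t _ => hRn t)
  have h2 : ∑ t ∈ Bd, Rz r a b Q1 α β t ≤ (C2 + K) * (V X * q ^ 3) := by
    have h3 : ∀ t ∈ Bd, Rz r a b Q1 α β t ≤ Rz (2 * r) a b Q1 α β t / q + q := by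
      intro t _
      have e1 : Rz (2 * r) a b Q1 α β t = Rz r a b Q1 α β t ^ 2 := by
        unfold Rz
        rw [← pow_mul, ← pow_mul, ← pow_mul]
        congr 1
        ring
      rw [e1]
      set x := Rz r a b Q1 α β t with hx
      have hx0 : 0 ≤ x := hRn t
      have hq0 : 0 < q := by linarith
      rcases le_total x q with h | h
      · have : 0 ≤ x ^ 2 / q := by positivity
        linarith
      · have : x ≤ x ^ 2 / q := by
          rw [le_div_iff₀ hq0, sq]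
          exact mul_le_mul_of_nonneg_left h hx0
        linarith
    refine (sum_le_sum h3).trans ?_
    rw [sum_add_distrib, ← sum_div, sum_const, nsmul_eq_mul]
    have h4 : ∑ t ∈ Bd, Rz (2 * r) a b Q1 α β t ≤ C2 * (X * V X) :=
      (sum_le_sum_of_subset_of_nonneg (filter_subset _ _)
        (fun t _ _ => Rz_nonneg _ _ _ _ _ _ t)).trans (hC2 X hX)
    have hq0 : 0 < q := by linarith
    calc (∑ t ∈ Bd, Rz (2 * r) a b Q1 α β t) / q + (Bd.card : ℝ) * q
        ≤ C2 * (X * V X) / q + K * V X * q ^ 2 * q :=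
          add_le_add (div_le_div_of_nonneg_right h4 hq0.le)
            (mul_le_mul_of_nonneg_right hBdc hq0.le)
      _ = _ := by
          rw [← hq4]
          field_simp
  have h5 : V X * q ^ 3 ≤ c * S := by
    have h6 := hc X hX
    rw [hS, ← mul_div_assoc, le_div_iff₀ (by positivity)]
    calc V X * q ^ 3 * (1 + Real.log X) ^ m ≤ V X * q ^ 3 * (c * q) :=
          mul_le_mul_of_nonneg_left h6 (by positivity)
      _ = c * (X * V X) := by rw [← hq4]; ring
  calc _ ≤ C1 * S + (C2 + K) * (V X * q ^ 3) := h1.trans (add_le_add le_rfl h2)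
    _ ≤ C1 * S + (C2 + K) * (c * S) := by
        have h7 : 0 ≤ C2 + K := by positivity
        exact add_le_add le_rfl (mul_le_mul_of_nonneg_left h5 h7)
    _ = _ := by ring

end Pool.Agent.V7H45.BF
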